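import Pool.Agent.Helper92.KS.Geom
import Pool.Agent.Helper87.KS.Final1
import Pool.Agent.Helper47.PQ.R3
import Pool.Agent.Helper47.PQ.R4

set_option autoImplicit false

/-!
# Project KS: Kodaira dimension and numerical dimension agree for all divisors on compactifications
of connected solvable groups, and on their finite images
-/

namespace Pool.Agent.Helper92.KS

open Pool.Agent.Helper92.Weak Pool.Agent.Helper47.PQ

theorem kod_eq_nu {k L : Type*} [Field k] [IsAlgClosed k] [CharZero k] [Field L] [Algebra k L]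
    {r s : ℕ} {x : Fin r → L} {y : Fin s → L}
    {𝒟 : Set ((Fin s → ℤ) × Derivation k (MvPolynomial (Fin r) k) (MvPolynomial (Fin r) k))}
    {X : ProjVar k L} (h : IsSolvableCompactification x y 𝒟 X) (D : X.Div) : X.kod D = X.nu D := by
  obtain ⟨H, hH, B, hB⟩ := geomS h
  obtain ⟨N, M, hN, h1, h2⟩ := hB D
  exact Pool.Agent.Helper87.KS.kod_eq_nu_of_sdata X D B hN M h1 h2

/-- The same for finite images. -/
theorem kod_eq_nu_cover {k L E : Type*} [Field k] [IsAlgClosed k] [CharZero k] [Field L] [Field E]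
    [Algebra k L] [Algebra k E] [Algebra L E] [IsScalarTower k L E] {r s : ℕ} {x : Fin r → E}
    {y : Fin s → E}
    {𝒟 : Set ((Fin s → ℤ) × Derivation k (MvPolynomial (Fin r) k) (MvPolynomial (Fin r) k))}
    {X' : ProjVar k E} (h : IsSolvableCompactification x y 𝒟 X') {X : ProjVar k L}
    (hc : IsFiniteCover X' X) (D : X.Div) : X.kod D = X.nu D := by
  obtain ⟨D', hD'⟩ := hc.exists_pull D
  rw [← hc.kod_pull hD', ← hc.nu_pull hD']
  exact kod_eq_nu h D'

end Pool.Agent.Helper92.KS
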