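import Pool.Agent.Helper92.KN.Compl

set_option autoImplicit false

/-!
# Project KS, geometry: systems of divisible groups of automorphisms of `L`
-/

namespace Pool.Agent.Helper92.KS

open Pool.Agent.Helper92.Weak MvPolynomial
open Pool.Agent.Helper92.KN (coord lev lev_apply lev_single ne_zero_x ne_zero_y exists_lev_mul
  exists_lev_eq term_mem lev_injective val_mono val_term act aeval_x_ne coord_left coord_right
  aeval_inX)

variable {k L : Type*} [Field k] [Field L] [Algebra k L] {r s : ℕ}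

/-- The ring `k[x, y, y⁻¹]`. -/
def laur (k : Type*) {L : Type*} [Field k] [Field L] [Algebra k L] {r s : ℕ} (x : Fin r → L)
    (y : Fin s → L) : Subalgebra k L :=
  Algebra.adjoin k (Set.range x ∪ (Set.range y ∪ Set.range fun j => (y j)⁻¹))

section

variable {x : Fin r → L} {y : Fin s → L}

lemma x_mem (i : Fin r) : x i ∈ laur k x y :=
  Algebra.subset_adjoin (Or.inl ⟨i, rfl⟩)

lemma y_mem (j : Fin s) : y j ∈ laur k x y :=
  Algebra.subset_adjoin (Or.inr (Or.inl ⟨j, rfl⟩))

lemma y_inv_mem (j : Fin s) : (y j)⁻¹ ∈ laur k x y :=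
  Algebra.subset_adjoin (Or.inr (Or.inr ⟨j, rfl⟩))

lemma laur_le {S : Subalgebra k L} (hx : ∀ i, x i ∈ S) (hy : ∀ j, y j ∈ S)
    (hy' : ∀ j, (y j)⁻¹ ∈ S) : laur k x y ≤ S := by
  apply Algebra.adjoin_le
  rintro z (⟨i, rfl⟩ | ⟨j, rfl⟩ | ⟨j, rfl⟩)
  · exact hx i
  · exact hy j
  · exact hy' j

lemma aeval_x_mem (p : MvPolynomial (Fin r) k) : aeval x p ∈ laur k x y :=
  aeval_mem (R := laur k x y) (fun a => (laur k x y).algebraMap_mem a) (fun i => x_mem i) p

lemma mono_mem (u : Fin s → ℤ) : mono y u ∈ laur k x y := by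
  unfold mono
  apply Subalgebra.prod_mem
  intro j _
  cases u j with
  | ofNat n =>
    rw [Int.ofNat_eq_natCast, zpow_natCast]
    exact Subalgebra.pow_mem _ (y_mem j) n
  | negSucc n =>
    rw [zpow_negSucc, ← inv_pow]
    exact Subalgebra.pow_mem _ (y_inv_mem j) _

lemma lev_mem_laur (f : (Fin s → ℤ) →₀ MvPolynomial (Fin r) k) : lev x y f ∈ laur k x y := by
  rw [lev_apply]
  apply Subalgebra.sum_mem
  intro u _
  exact (laur k x y).mul_mem (aeval_x_mem _) (mono_mem u)

lemma mem_laur (h : IsTorus k (coord x y)) {z : L} :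
    z ∈ laur k x y ↔ ∃ f : (Fin s → ℤ) →₀ MvPolynomial (Fin r) k, lev x y f = z := by
  constructor
  · intro hz
    unfold laur at hz
    induction hz using Algebra.adjoin_induction with
    | mem z hz =>
      rcases hz with ⟨i, rfl⟩ | ⟨j, rfl⟩ | ⟨j, rfl⟩
      · exact ⟨Finsupp.single 0 (X i), by rw [lev_single, aeval_X, mono_zero, mul_one]⟩
      · exact ⟨Finsupp.single (Pi.single j 1) 1, by rw [lev_single, map_one, mono_single, one_mul]⟩
      · refine ⟨Finsupp.single (-Pi.single j 1) 1, ?_⟩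
        rw [lev_single, map_one, mono_neg, mono_single, one_mul]
    | algebraMap c =>
      exact ⟨Finsupp.single 0 (C c), by rw [lev_single, aeval_C, mono_zero, mul_one]⟩
    | add z w _ _ hz hw =>
      obtain ⟨f, rfl⟩ := hz
      obtain ⟨g, rfl⟩ := hw
      exact ⟨f + g, map_add _ _ _⟩
    | mul z w _ _ hz hw =>
      obtain ⟨f, rfl⟩ := hz
      obtain ⟨g, rfl⟩ := hw
      choose G hG using fun u => exists_lev_mul h f (g u) u
      refine ⟨∑ u ∈ g.support, G u, ?_⟩
      rw [map_sum, lev_apply g, Finset.mul_sum]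
      exact Finset.sum_congr rfl fun u _ => hG u
  · rintro ⟨f, rfl⟩
    exact lev_mem_laur f

lemma aeval_coord_mem (p : MvPolynomial (Fin (r + s)) k) : aeval (coord x y) p ∈ laur k x y := by
  refine aeval_mem (R := laur k x y) (fun a => (laur k x y).algebraMap_mem a) (fun l => ?_) p
  refine Fin.addCases (fun i => ?_) (fun j => ?_) l
  · rw [coord_left]; exact x_mem i
  · rw [coord_right]; exact y_mem j

lemma mono_eq_aeval {u : Fin s → ℤ} (hu : ∀ j, 0 ≤ u j) : ∃ q : MvPolynomial (Fin (r + s)) k,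
    mono y u = aeval (coord x y) q := by
  refine ⟨∏ j, X (Fin.natAdd r j) ^ (u j).toNat, ?_⟩
  unfold mono
  rw [map_prod]
  refine Finset.prod_congr rfl fun j _ => ?_
  rw [map_pow, aeval_X, coord_right, ← zpow_natCast, Int.toNat_of_nonneg (hu j)]

/-- A Laurent polynomial times a monomial in `y` is a polynomial. -/
lemma exists_mul_mono_eq (h : IsTorus k (coord x y)) {z : L} (hz : z ∈ laur k x y) :
    ∃ (u : Fin s → ℤ) (p : MvPolynomial (Fin (r + s)) k), z * mono y u = aeval (coord x y) p := by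
  unfold laur at hz
  induction hz using Algebra.adjoin_induction with
  | mem z hz =>
    rcases hz with ⟨i, rfl⟩ | ⟨j, rfl⟩ | ⟨j, rfl⟩
    · exact ⟨0, X (Fin.castAdd s i), by rw [mono_zero, mul_one, aeval_X, coord_left]⟩
    · exact ⟨0, X (Fin.natAdd r j), by rw [mono_zero, mul_one, aeval_X, coord_right]⟩
    · refine ⟨Pi.single j 1, 1, ?_⟩
      rw [mono_single, map_one, inv_mul_cancel₀ (ne_zero_y h j)]
  | algebraMap c => exact ⟨0, C c, by rw [mono_zero, mul_one, aeval_C]⟩
  | add z w _ _ hz hw =>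
    obtain ⟨u, p, hp⟩ := hz
    obtain ⟨v, q, hq⟩ := hw
    -- make the exponents nonnegative
    obtain ⟨a, ha⟩ := mono_eq_aeval (k := k) (x := x) (y := y)
      (u := fun j => max 0 (v j - u j)) fun j => le_max_left _ _
    obtain ⟨b, hb⟩ := mono_eq_aeval (k := k) (x := x) (y := y)
      (u := fun j => max 0 (u j - v j)) fun j => le_max_left _ _
    have e1 : (fun j => max (u j) (v j)) = u + fun j => max 0 (v j - u j) := by
      funext j
      simp only [Pi.add_apply]
      omega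
    have e2 : (fun j => max (u j) (v j)) = v + fun j => max 0 (u j - v j) := by
      funext j
      simp only [Pi.add_apply]
      omega
    refine ⟨fun j => max (u j) (v j), p * a + q * b, ?_⟩
    rw [add_mul, map_add, map_mul, map_mul, ← hp, ← hq, ← ha, ← hb]
    congr 1
    · rw [e1, mono_add (ne_zero_y h), mul_assoc]
    · rw [e2, mono_add (ne_zero_y h), mul_assoc]
  | mul z w _ _ hz hw =>
    obtain ⟨u, p, hp⟩ := hz
    obtain ⟨v, q, hq⟩ := hw
    refine ⟨u + v, p * q, ?_⟩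
    rw [mono_add (ne_zero_y h), map_mul, ← hp, ← hq]
    ring

/-- All larger exponents do as well. -/
lemma exists_mul_mono_eq' (h : IsTorus k (coord x y)) {z : L} (hz : z ∈ laur k x y) :
    ∃ u : Fin s → ℤ, ∀ w : Fin s → ℤ, (∀ j, u j ≤ w j) →
      ∃ p : MvPolynomial (Fin (r + s)) k, z * mono y w = aeval (coord x y) p := by
  obtain ⟨u, p, hp⟩ := exists_mul_mono_eq h hz
  refine ⟨u, fun w hw => ?_⟩
  obtain ⟨q, hq⟩ := mono_eq_aeval (k := k) (x := x) (y := y) (u := w - u)
    fun j => sub_nonneg.2 (hw j)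
  refine ⟨p * q, ?_⟩
  rw [map_mul, ← hp, ← hq, mul_assoc, ← mono_add (ne_zero_y h), add_sub_cancel]

lemma exists_laur_div (h : IsTorus k (coord x y)) (z : L) :
    ∃ a ∈ laur k x y, ∃ b ∈ laur k x y, b ≠ 0 ∧ z = a / b := by
  obtain ⟨a, b, hb, hab⟩ := exists_aeval_div h z
  exact ⟨_, aeval_coord_mem a, _, aeval_coord_mem b,
    fun h0 => hb (h.indep (by rw [h0, map_zero])), hab⟩

end

/-- The valuation is invariant under all the groups of the family. -/
def Inv (𝒢 : Set (Subgroup (L ≃ₐ[k] L))) (P : DVal k L) : Prop :=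
  ∀ G ∈ 𝒢, ∀ g ∈ G, P.comap g = P

lemma comap_mul (P : DVal k L) (g g' : L ≃ₐ[k] L) : P.comap (g * g') = (P.comap g).comap g' := rfl

lemma comap_one (P : DVal k L) : P.comap 1 = P := rfl

lemma comap_inv_comap (P : DVal k L) (g : L ≃ₐ[k] L) : (P.comap g).comap g⁻¹ = P := by
  rw [← comap_mul, mul_inv_cancel, comap_one]

/-- The action of a group of automorphisms on valuations. -/
@[reducible] def grpAction (G : Subgroup (L ≃ₐ[k] L)) : MulAction G (DVal k L) where
  smul g P := P.comap (g : L ≃ₐ[k] L)⁻¹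
  one_smul P := by
    change P.comap ((1 : G) : L ≃ₐ[k] L)⁻¹ = P
    rw [OneMemClass.coe_one, inv_one, comap_one]
  mul_smul g g' P := by
    change P.comap ((g * g' : G) : L ≃ₐ[k] L)⁻¹ =
      (P.comap (g' : L ≃ₐ[k] L)⁻¹).comap (g : L ≃ₐ[k] L)⁻¹
    rw [← comap_mul, MulMemClass.coe_mul, mul_inv_rev]

/-- A valuation with finite orbit under a divisible group is invariant. -/
theorem fixed_of_finite (G : Subgroup (L ≃ₐ[k] L))
    (hdiv : ∀ g ∈ G, ∀ n : ℕ, n ≠ 0 → ∃ g' ∈ G, g' ^ n = g) (P : DVal k L)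
    (hfin : {Q | ∃ g ∈ G, Q = P.comap g}.Finite) : ∀ g ∈ G, P.comap g = P := by
  let _ := grpAction G
  have horb : (MulAction.orbit G P).Finite := by
    apply hfin.subset
    rintro _ ⟨g, rfl⟩
    exact ⟨_, G.inv_mem g.2, rfl⟩
  have hidx := MulAction.index_stabilizer G P
  have hne : (MulAction.stabilizer G P).index ≠ 0 := by
    rw [hidx]
    exact ((Set.ncard_pos horb).2 (MulAction.nonempty_orbit P)).ne'
  intro g hg
  obtain ⟨g', hg', hgg⟩ := hdiv g⁻¹ (G.inv_mem hg) _
    (Nat.factorial_ne_zero (MulAction.stabilizer G P).index)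
  have h2 := Subgroup.pow_mem_of_index_ne_zero_of_dvd hne (⟨g', hg'⟩ : G)
    (n := (MulAction.stabilizer G P).index.factorial) fun m hm hm' => Nat.dvd_factorial hm hm'
  rw [MulAction.mem_stabilizer_iff] at h2
  change P.comap ((⟨g', hg'⟩ ^ (MulAction.stabilizer G P).index.factorial : G) : L ≃ₐ[k] L)⁻¹ = P
    at h2
  rw [SubgroupClass.coe_pow] at h2
  change P.comap (g' ^ (MulAction.stabilizer G P).index.factorial)⁻¹ = P at h2
  rw [hgg, inv_inv] at h2
  exact h2

/-- A family of divisible groups of automorphisms of `L` acting on `X` and on `k[x, y, y⁻¹]`,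
without common stable valuation which is nonnegative on `k[x, y, y⁻¹]`. -/
structure Sys (X : ProjVar k L) (x : Fin r → L) (y : Fin s → L)
    (𝒢 : Set (Subgroup (L ≃ₐ[k] L))) : Prop where
  div : ∀ G ∈ 𝒢, ∀ g ∈ G, ∀ n : ℕ, n ≠ 0 → ∃ g' ∈ G, g' ^ n = g
  pres : ∀ G ∈ 𝒢, ∀ g ∈ G, ∀ z ∈ laur k x y, g z ∈ laur k x y
  stab : ∀ G ∈ 𝒢, ∀ g ∈ G, ∀ P ∈ X.primeDivisors, P.comap g ∈ X.primeDivisors
  ns : ∀ P : DVal k L, laur k x y ≤ P.ring → ¬ Inv 𝒢 P

namespace Sys

variable {x : Fin r → L} {y : Fin s → L} {X : ProjVar k L} {𝒢 : Set (Subgroup (L ≃ₐ[k] L))}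

lemma laur_le_comap (hS : Sys X x y 𝒢) {G : Subgroup (L ≃ₐ[k] L)} (hG : G ∈ 𝒢) {g : L ≃ₐ[k] L}
    (hg : g ∈ G) (P : DVal k L) : laur k x y ≤ (P.comap g).ring ↔ laur k x y ≤ P.ring := by
  constructor
  · intro h z hz
    have h1 := h (hS.pres G hG g⁻¹ (G.inv_mem hg) z hz)
    rw [DVal.mem_ring, DVal.comap_apply] at h1
    have h2 : g (g⁻¹ z) = z := by
      rw [← AlgEquiv.mul_apply, mul_inv_cancel, AlgEquiv.one_apply]
    rwa [h2] at h1
  · intro h z hz
    exact h (hS.pres G hG g hg z hz)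

/-- A valuation which is negative somewhere on `k[x, y, y⁻¹]` is negative on a generator. -/
lemma not_laur_le {P : DVal k L} (hP : ¬ laur k x y ≤ P.ring) :
    (∃ i, P (x i) ≠ 0) ∨ ∃ j, P (y j) ≠ 0 := by
  by_contra hcon
  push Not at hcon
  apply hP
  apply laur_le
  · intro i
    rw [DVal.mem_ring, hcon.1 i]
  · intro j
    rw [DVal.mem_ring, hcon.2 j]
  · intro j
    rw [DVal.mem_ring, P.map_inv, hcon.2 j, neg_zero]

/-- The prime divisors which are negative somewhere on `k[x, y, y⁻¹]` form a finite set. -/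
lemma finite_bd (h : IsTorus k (coord x y)) (X : ProjVar k L) :
    {P : DVal k L | P ∈ X.primeDivisors ∧ ¬ laur k x y ≤ P.ring}.Finite := by
  apply ((Set.finite_iUnion fun i => X.finite_support (ne_zero_x h i)).union
    (Set.finite_iUnion fun j => X.finite_support (ne_zero_y h j))).subset
  rintro P ⟨hP, hn⟩
  rcases not_laur_le hn with ⟨i, hi⟩ | ⟨j, hj⟩
  · left
    rw [Set.mem_iUnion]
    exact ⟨i, hP, hi⟩
  · right
    rw [Set.mem_iUnion]
    exact ⟨j, hP, hj⟩

/-- The boundary divisors are the invariant ones. -/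
theorem inv_iff (hS : Sys X x y 𝒢) (h : IsTorus k (coord x y)) {P : DVal k L}
    (hP : P ∈ X.primeDivisors) : Inv 𝒢 P ↔ ¬ laur k x y ≤ P.ring := by
  constructor
  · intro hI hle
    exact hS.ns P hle hI
  · intro hn G hG
    apply fixed_of_finite G (hS.div G hG)
    apply (finite_bd h X).subset
    rintro _ ⟨g, hg, rfl⟩
    exact ⟨hS.stab G hG g hg P hP, fun h1 => hn ((hS.laur_le_comap hG hg P).1 h1)⟩

/-- A valuation which is nonnegative on `k[x, y, y⁻¹]` has an infinite orbit. -/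
theorem exists_infinite (hS : Sys X x y 𝒢) {P : DVal k L} (hP : laur k x y ≤ P.ring) :
    ∃ G ∈ 𝒢, ¬ {Q | ∃ g ∈ G, Q = P.comap g}.Finite := by
  by_contra hcon
  push Not at hcon
  exact hS.ns P hP fun G hG => fixed_of_finite G (hS.div G hG) P (hcon G hG)

end Sys

end Pool.Agent.Helper92.KS
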