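import Pool.Agent.Helper92.KS.PrimeConv

set_option autoImplicit false

/-!
# Project KS, geometry: the degree bound
-/

namespace Pool.Agent.Helper92.KS

open Pool.Agent.Helper92.Weak MvPolynomial
open Pool.Agent.Helper92.KN (coord lev lev_apply lev_single ne_zero_x ne_zero_y exists_lev_mul
  exists_lev_eq term_mem lev_injective val_mono val_term act aeval_x_ne coord_left coord_right
  aeval_inX)

variable {k L : Type*} [Field k] [Field L] [Algebra k L] {r s : ℕ} {x : Fin r → L} {y : Fin s → L}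
  {X : ProjVar k L} {𝒢 : Set (Subgroup (L ≃ₐ[k] L))}

/-- An exponent of all coordinates. -/
def expo {r s : ℕ} (m : Fin r →₀ ℕ) (u : Fin s → ℤ) : Fin (r + s) → ℤ :=
  Fin.append (fun i => ((m i : ℕ) : ℤ)) u

@[simp] lemma expo_left (m : Fin r →₀ ℕ) (u : Fin s → ℤ) (i : Fin r) :
    expo m u (Fin.castAdd s i) = ((m i : ℕ) : ℤ) := by
  simp [expo]

@[simp] lemma expo_right (m : Fin r →₀ ℕ) (u : Fin s → ℤ) (j : Fin s) :
    expo m u (Fin.natAdd r j) = u j := by
  simp [expo]

lemma expo_left_injective (u : Fin s → ℤ) : Function.Injective fun m : Fin r →₀ ℕ => expo m u := by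
  intro m m' hm
  ext i
  have h1 := congrFun hm (Fin.castAdd s i)
  simp only [expo_left] at h1
  exact_mod_cast h1

lemma mono_expo (m : Fin r →₀ ℕ) (u : Fin s → ℤ) :
    mono (coord x y) (expo m u) = (∏ i, x i ^ m i) * mono y u := by
  unfold mono
  rw [Fin.prod_univ_add]
  congr 1
  · refine Finset.prod_congr rfl fun i _ => ?_
    rw [expo_left, coord_left, zpow_natCast]
  · refine Finset.prod_congr rfl fun j _ => ?_
    rw [expo_right, coord_right]

/-- A term as a Laurent polynomial in all coordinates. -/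
noncomputable def lau (f : MvPolynomial (Fin r) k) (u : Fin s → ℤ) : (Fin (r + s) → ℤ) →₀ k :=
  ∑ m ∈ f.support, Finsupp.single (expo m u) (coeff m f)

lemma lau_apply (f : MvPolynomial (Fin r) k) (u : Fin s → ℤ) {m : Fin r →₀ ℕ}
    (hm : m ∈ f.support) : lau f u (expo m u) = coeff m f := by
  classical
  unfold lau
  rw [Finsupp.finsetSum_apply, Finset.sum_eq_single m]
  · rw [Finsupp.single_eq_same]
  · intro m' _ hne
    rw [Finsupp.single_apply, if_neg]
    intro heq
    exact hne (expo_left_injective u heq)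
  · intro h1
    exact absurd hm h1

lemma ev_lau (f : MvPolynomial (Fin r) k) (u : Fin s → ℤ) :
    ev k (coord x y) (lau f u) = aeval x f * mono y u := by
  unfold lau
  rw [map_sum]
  conv_rhs => rw [f.as_sum]
  rw [map_sum, Finset.sum_mul]
  refine Finset.sum_congr rfl fun m _ => ?_
  rw [ev_single, aeval_monomial, Finsupp.prod_fintype _ _ (fun i => by simp), Algebra.smul_def,
    mono_expo, mul_assoc]

/-- The value of a monomial valuation on a term. -/
lemma monoVal_term_le (h : IsTorus k (coord x y)) (w : Fin (r + s) → ℤ)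
    (hs : ∃ (c : k) (u : Fin (r + s) → ℤ), c ≠ 0 ∧ (ZVal.trivial k k) c + ipair w u = 1)
    {f : MvPolynomial (Fin r) k} {m : Fin r →₀ ℕ} (hm : m ∈ f.support) (u : Fin s → ℤ) :
    monoVal h (ZVal.trivial k k) w hs (aeval x f * mono y u) ≤ ipair w (expo m u) := by
  have h1 : lau f u (expo m u) ≠ 0 := by
    rw [lau_apply f u hm]
    exact mem_support_iff.1 hm
  have h2 : lau f u ≠ 0 := by
    intro h0
    rw [h0] at h1
    exact h1 rfl
  rw [← ev_lau, monoVal_ev h _ _ _ h2]
  refine (gaussN_le h1).trans ?_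
  have h3 : (ZVal.trivial k k) (lau f u (expo m u)) = 0 := rfl
  rw [h3, zero_add]

lemma ipair_single (l : Fin (r + s)) (e : ℤ) (u : Fin (r + s) → ℤ) :
    ipair (Pi.single l e) u = u l * e := by
  unfold ipair
  rw [Finset.sum_eq_single l]
  · rw [Pi.single_eq_same]
  · intro l' _ hl
    rw [Pi.single_eq_of_ne hl, mul_zero]
  · intro h1
    exact absurd (Finset.mem_univ _) h1

lemma triv_surj (l : Fin (r + s)) {e : ℤ} (he : e * e = 1) :
    ∃ (c : k) (u : Fin (r + s) → ℤ), c ≠ 0 ∧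
      (ZVal.trivial k k) c + ipair (Pi.single l e) u = 1 := by
  refine ⟨1, Pi.single l e, one_ne_zero, ?_⟩
  have h0 : (ZVal.trivial k k) (1 : k) = 0 := rfl
  rw [h0, zero_add, ipair_single, Pi.single_eq_same, he]

lemma isFrac_local {R : Subalgebra k L} (hR : R ∈ X.localRings) : IsFrac R := by
  obtain ⟨i, p, hp, rfl⟩ := X.mem_localRings.1 hR
  exact (X.chart_isFrac i).mono (le_locAt p)

/-- An element of a local ring which is positive at a given prime divisor through the point. -/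
lemma exists_pos {R : Subalgebra k L} (hR : R ∈ X.localRings) (P : DVal k L) :
    ∃ a ∈ R, a ≠ 0 ∧ (R ≤ P.ring → 1 ≤ P a) := by
  by_cases hle : R ≤ P.ring
  · obtain ⟨z, hz0, hz⟩ := P.exists_uniformizer
    obtain ⟨a, ha, b, hb, hb0, hzab⟩ := isFrac_local hR z
    have ha0 : a ≠ 0 := by
      rintro rfl
      rw [zero_div] at hzab
      exact hz0 hzab
    refine ⟨a, ha, ha0, fun _ => ?_⟩
    have h1 := hle hb
    rw [DVal.mem_ring] at h1
    rw [hzab, P.map_div ha0 hb0] at hz
    omega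
  · exact ⟨1, R.one_mem, one_ne_zero, fun h1 => absurd h1 hle⟩

lemma finite_inv (hS : Sys X x y 𝒢) (h : IsTorus k (coord x y)) :
    {P : X.primeDivisors | Inv 𝒢 P.1}.Finite := by
  apply Set.Finite.of_finite_image (f := fun P : X.primeDivisors => P.1) _
    (Subtype.val_injective.injOn)
  apply (Sys.finite_bd h X).subset
  rintro _ ⟨P, hP, rfl⟩
  exact ⟨P.2, (hS.inv_iff h P.2).1 hP⟩

/-- Every valuation is bounded below on the functions with bounded poles. -/
theorem val_bound [IsAlgClosed k] [CharZero k] (hS : Sys X x y 𝒢) (h : IsTorus k (coord x y))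
    (v : DVal k L) : ∃ C : ℕ, ∀ (T : ℕ), ∀ z ∈ laur k x y, z ≠ 0 →
      (∀ P ∈ X.primeDivisors, Inv 𝒢 P → P.Ge (-(T : ℚ)) z) → -((C * T : ℕ) : ℤ) ≤ v z := by
  classical
  obtain ⟨R, hR, hdom⟩ := X.exists_center v
  have hRv : R ≤ v.ring := hdom.1
  set S : Finset X.primeDivisors := (finite_inv hS h).toFinset with hSdef
  choose a ha using fun P : X.primeDivisors => exists_pos hR P.1
  set σ : L := ∏ P ∈ S, a P with hσ
  have hσR : σ ∈ R := Subalgebra.prod_mem _ fun P _ => (ha P).1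
  have hσ0 : σ ≠ 0 := Finset.prod_ne_zero_iff.2 fun P _ => (ha P).2.1
  have hσv : 0 ≤ v σ := by
    have := hRv hσR
    rwa [DVal.mem_ring] at this
  refine ⟨(v σ).toNat, fun T z hzS hz0 hz => ?_⟩
  have hmem : z * σ ^ T ∈ R := by
    apply X.hartogs hR
    intro P hP hRP
    have hPσ : 0 ≤ P σ := by
      have := hRP hσR
      rwa [DVal.mem_ring] at this
    rw [DVal.mem_ring, P.map_mul hz0 (pow_ne_zero T hσ0), P.map_pow]
    by_cases hinv : Inv 𝒢 P
    · have h1 : 1 ≤ P σ := by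
        have hPS : (⟨P, hP⟩ : X.primeDivisors) ∈ S := by
          rw [hSdef, Set.Finite.mem_toFinset]
          exact hinv
        rw [hσ, P.map_prod _ _ fun Q _ => (ha Q).2.1]
        refine ((ha ⟨P, hP⟩).2.2 hRP).trans ?_
        apply Finset.single_le_sum (f := fun Q : X.primeDivisors => P (a Q)) _ hPS
        intro Q _
        have := hRP (ha Q).1
        rwa [DVal.mem_ring] at this
      have h2 := hz P hP hinv
      rw [DVal.ge_iff hz0] at h2
      have h3 : -(T : ℤ) ≤ P z := by exact_mod_cast h2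
      have h4 : (T : ℤ) * 1 ≤ (T : ℤ) * P σ := mul_le_mul_of_nonneg_left h1 (by positivity)
      linarith
    · have h1 : 0 ≤ P z := by
        by_contra hcon
        exact hinv ((hS.inv_iff h hP).2 fun hle => hcon (hle hzS))
      have h4 : 0 ≤ (T : ℤ) * P σ := mul_nonneg (by positivity) hPσ
      linarith
  have h5 := hRv hmem
  rw [DVal.mem_ring, DVal.map_mul _ hz0 (pow_ne_zero T hσ0), DVal.map_pow] at h5
  have h7 := Int.toNat_of_nonneg hσv
  push_cast
  rw [h7]
  linarith

/-- The degree bound. -/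
theorem deg_bound [IsAlgClosed k] [CharZero k] (hS : Sys X x y 𝒢) (h : IsTorus k (coord x y)) :
    ∃ C : ℕ, ∀ (T : ℕ) (f : MvPolynomial (Fin r) k) (u : Fin s → ℤ), f ≠ 0 →
      (∀ P ∈ X.primeDivisors, Inv 𝒢 P → P.Ge (-(T : ℚ)) (aeval x f * mono y u)) →
      f.totalDegree ≤ C * (T + 1) ∧ ∀ j, |u j| ≤ C * (T + 1) := by
  classical
  have hsq : (1 : ℤ) * 1 = 1 := by norm_num
  have hsq' : (-1 : ℤ) * (-1) = 1 := by norm_num
  choose C₁ hC₁ using fun i : Fin r => val_bound hS h
    (monoVal h (ZVal.trivial k k) (Pi.single (Fin.castAdd s i) (-1)) (triv_surj _ hsq'))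
  choose C₂ hC₂ using fun j : Fin s => val_bound hS h
    (monoVal h (ZVal.trivial k k) (Pi.single (Fin.natAdd r j) (-1)) (triv_surj _ hsq'))
  choose C₃ hC₃ using fun j : Fin s => val_bound hS h
    (monoVal h (ZVal.trivial k k) (Pi.single (Fin.natAdd r j) 1) (triv_surj _ hsq))
  refine ⟨(∑ i, C₁ i) + (∑ j, C₂ j) + ∑ j, C₃ j, fun T f u hf0 hf => ?_⟩
  have hsupp : f.support.Nonempty := by
    rw [Finset.nonempty_iff_ne_empty, Ne, MvPolynomial.support_eq_empty]
    exact hf0
  have hzS : aeval x f * mono y u ∈ laur k x y := (laur k x y).mul_mem (aeval_x_mem f) (mono_mem u)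
  have hz0 : aeval x f * mono y u ≠ 0 :=
    mul_ne_zero (aeval_x_ne h hf0) (mono_ne_zero (ne_zero_y h) u)
  constructor
  · have h0 : ∀ i, degreeOf i f ≤ C₁ i * T := by
      intro i
      obtain ⟨m, hm, hmi⟩ : ∃ m ∈ f.support, degreeOf i f = m i := by
        rw [degreeOf_eq_sup]
        exact Finset.exists_mem_eq_sup _ hsupp _
      have h1 := hC₁ i T _ hzS hz0 hf
      have h2 := monoVal_term_le h (Pi.single (Fin.castAdd s i) (-1)) (triv_surj _ hsq') hm u
      rw [ipair_single, expo_left] at h2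
      rw [hmi]
      have h3 := h1.trans h2
      have h4 : ((m i : ℕ) : ℤ) ≤ ((C₁ i * T : ℕ) : ℤ) := by linarith
      exact_mod_cast h4
    have h1 : f.totalDegree ≤ ∑ i, degreeOf i f := by
      unfold totalDegree
      apply Finset.sup_le
      intro m hm
      rw [Finsupp.sum_fintype _ _ (fun _ => rfl)]
      exact Finset.sum_le_sum fun i _ => monomial_le_degreeOf i hm
    calc f.totalDegree ≤ ∑ i, degreeOf i f := h1
      _ ≤ ∑ i, C₁ i * T := Finset.sum_le_sum fun i _ => h0 i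
      _ = (∑ i, C₁ i) * T := by rw [Finset.sum_mul]
      _ ≤ ((∑ i, C₁ i) + (∑ j, C₂ j) + ∑ j, C₃ j) * (T + 1) :=
        Nat.mul_le_mul (by omega) (Nat.le_succ T)
  · intro j
    obtain ⟨m, hm⟩ := hsupp
    have h1 := hC₂ j T _ hzS hz0 hf
    have h2 := monoVal_term_le h (Pi.single (Fin.natAdd r j) (-1)) (triv_surj _ hsq') hm u
    rw [ipair_single, expo_right] at h2
    have h3 := hC₃ j T _ hzS hz0 hf
    have h4 := monoVal_term_le h (Pi.single (Fin.natAdd r j) 1) (triv_surj _ hsq) hm u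
    rw [ipair_single, expo_right] at h4
    have e2 : C₂ j ≤ ∑ j, C₂ j := Finset.single_le_sum (f := C₂) (fun _ _ => Nat.zero_le _)
      (Finset.mem_univ j)
    have e3 : C₃ j ≤ ∑ j, C₃ j := Finset.single_le_sum (f := C₃) (fun _ _ => Nat.zero_le _)
      (Finset.mem_univ j)
    have e4 : C₂ j * T ≤ ((∑ i, C₁ i) + (∑ j, C₂ j) + ∑ j, C₃ j) * (T + 1) :=
      Nat.mul_le_mul (by omega) (Nat.le_succ T)
    have e5 : C₃ j * T ≤ ((∑ i, C₁ i) + (∑ j, C₂ j) + ∑ j, C₃ j) * (T + 1) :=
      Nat.mul_le_mul (by omega) (Nat.le_succ T)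
    have e6 : ((C₂ j * T : ℕ) : ℤ) ≤
        ((((∑ i, C₁ i) + (∑ j, C₂ j) + ∑ j, C₃ j) * (T + 1) : ℕ) : ℤ) := by exact_mod_cast e4
    have e7 : ((C₃ j * T : ℕ) : ℤ) ≤
        ((((∑ i, C₁ i) + (∑ j, C₂ j) + ∑ j, C₃ j) * (T + 1) : ℕ) : ℤ) := by exact_mod_cast e5
    rw [abs_le]
    push_cast at e6 e7 h1 h3 ⊢
    constructor <;> linarith

end Pool.Agent.Helper92.KS
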