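import Pool.Agent.Helper92.KS.Sol

set_option autoImplicit false

/-!
# Project KS, geometry: the interface theorem
-/

namespace Pool.Agent.Helper92.KS

open Pool.Agent.Helper92.Weak MvPolynomial
open Pool.Agent.Helper92.KN (coord ne_zero_x ne_zero_y aeval_x_ne)
open Pool.Agent.Helper87.KS (RVal SData Fam ip)

universe u v

section

variable {k : Type*} [Field k] {r : ℕ}

lemma Tri.map_mem {δ : Derivation k (MvPolynomial (Fin r) k) (MvPolynomial (Fin r) k)}
    (hδ : Tri δ) (i : Fin r) {f : MvPolynomial (Fin r) k} (hf : f ∈ supported k {j | j < i}) :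
    δ f ∈ supported k {j | j < i} := by
  rw [supported] at hf
  induction hf using Algebra.adjoin_induction with
  | mem f hf =>
    obtain ⟨j, hj, rfl⟩ := hf
    have h1 : supported k {l : Fin r | l < j} ≤ supported k {l : Fin r | l < i} :=
      supported_mono fun l (hl : l < j) => (show l < i from lt_trans hl hj)
    exact h1 (hδ j)
  | algebraMap c =>
    rw [Derivation.map_algebraMap]
    exact Subalgebra.zero_mem _
  | add f g _ _ hf hg =>
    rw [map_add]
    exact Subalgebra.add_mem _ hf hg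
  | mul f g hf' hg' hf hg =>
    rw [Derivation.leibniz, smul_eq_mul, smul_eq_mul]
    exact Subalgebra.add_mem _ (Subalgebra.mul_mem _ hf' hg) (Subalgebra.mul_mem _ hg' hf)

lemma Tri.bracket {δ δ' : Derivation k (MvPolynomial (Fin r) k) (MvPolynomial (Fin r) k)}
    (hδ : Tri δ) (hδ' : Tri δ') : Tri ⁅δ, δ'⁆ := by
  intro i
  rw [Derivation.commutator_apply]
  exact Subalgebra.sub_mem _ (hδ.map_mem i (hδ' i)) (hδ'.map_mem i (hδ i))

end

section

variable {k L : Type*} [Field k] [Field L] [Algebra k L] {r s : ℕ} {x : Fin r → L} {y : Fin s → L}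
  {X : ProjVar k L} {𝒢 : Set (Subgroup (L ≃ₐ[k] L))}

/-- The derivations of weight `β` which do not decrease the values of the boundary valuations. -/
def wt (ht : IsTorus k (coord x y)) (X : ProjVar k L) (𝒢 : Set (Subgroup (L ≃ₐ[k] L)))
    (β : Fin s → ℤ) :
    Submodule k (Derivation k (MvPolynomial (Fin r) k) (MvPolynomial (Fin r) k)) where
  carrier := {δ | Tri δ ∧ ∀ (P : Bd X 𝒢) (n : ℤ) f, (rval ht P.1.1).Ge n f →
    (rval ht P.1.1).Ge (n - ip (fun j => P.1.1 (y j)) β) (δ f)}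
  zero_mem' := ⟨fun i => Subalgebra.zero_mem _, fun P n f _ => Or.inl rfl⟩
  add_mem' := by
    rintro δ δ' ⟨h1, h2⟩ ⟨h3, h4⟩
    refine ⟨fun i => Subalgebra.add_mem _ (h1 i) (h3 i), fun P n f hf => ?_⟩
    rw [Derivation.add_apply]
    exact (h2 P n f hf).add (h4 P n f hf)
  smul_mem' := by
    rintro c δ ⟨h1, h2⟩
    refine ⟨fun i => Subalgebra.smul_mem _ (h1 i) c, fun P n f hf => ?_⟩
    rw [Derivation.smul_apply]
    exact (h2 P n f hf).smul c

lemma wt_bracket (ht : IsTorus k (coord x y)) {β β' : Fin s → ℤ}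
    {δ δ' : Derivation k (MvPolynomial (Fin r) k) (MvPolynomial (Fin r) k)}
    (hδ : δ ∈ wt ht X 𝒢 β) (hδ' : δ' ∈ wt ht X 𝒢 β') : ⁅δ, δ'⁆ ∈ wt ht X 𝒢 (β + β') := by
  refine ⟨hδ.1.bracket hδ'.1, fun P n f hf => ?_⟩
  rw [Derivation.commutator_apply]
  apply RVal.Ge.sub
  · refine (hδ.2 P _ _ (hδ'.2 P _ _ hf)).mono (le_of_eq ?_)
    rw [Pool.Agent.Helper87.KS.ip_add]
    ring
  · refine (hδ'.2 P _ _ (hδ.2 P _ _ hf)).mono (le_of_eq ?_)
    rw [Pool.Agent.Helper87.KS.ip_add]
    ring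

/-- Bounds for the derivations. -/
lemma wt_bound [IsAlgClosed k] [CharZero k] (hS : Sys X x y 𝒢) (ht : IsTorus k (coord x y)) :
    ∃ d : ℕ, ∀ (β : Fin s → ℤ), ∀ δ ∈ wt ht X 𝒢 β, ∀ i, (δ (MvPolynomial.X i)).totalDegree ≤ d ∧
      (δ (MvPolynomial.X i) ≠ 0 → ∀ j, |β j| ≤ d) := by
  classical
  obtain ⟨C, hC⟩ := deg_bound hS ht
  have hfin := finite_inv hS ht
  set S : Finset X.primeDivisors := hfin.toFinset with hSdef
  set T : ℕ := ∑ P ∈ S, ∑ i, (P.1 (x i)).natAbs with hT
  have hTle : ∀ P : Bd X 𝒢, ∀ i, -(T : ℤ) ≤ P.1.1 (x i) := by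
    intro P i
    have h1 : (P.1.1 (x i)).natAbs ≤ T := by
      have h2 : (P.1.1 (x i)).natAbs ≤ ∑ i, (P.1.1 (x i)).natAbs :=
        Finset.single_le_sum (f := fun i => (P.1.1 (x i)).natAbs) (fun _ _ => Nat.zero_le _)
          (Finset.mem_univ i)
      have h3 : ∑ i, (P.1.1 (x i)).natAbs ≤ T :=
        Finset.single_le_sum (f := fun P : X.primeDivisors => ∑ i, (P.1 (x i)).natAbs)
          (fun _ _ => Nat.zero_le _) (hfin.mem_toFinset.2 P.2)
      exact h2.trans h3
    omega
  refine ⟨C * (T + 1), fun β δ hδ i => ?_⟩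
  by_cases h0 : δ (MvPolynomial.X i) = 0
  · rw [h0]
    exact ⟨by simp, fun h1 => absurd rfl h1⟩
  have h1 := hC T (δ (MvPolynomial.X i)) β h0 (by
    intro P hP hinv
    have h2 := hδ.2 ⟨⟨P, hP⟩, hinv⟩ (P (x i)) (MvPolynomial.X i) (by
      right
      rw [rval_apply, aeval_X])
    have h3 := h2.mono (show (-(T : ℤ)) - ip (fun j => P (y j)) β ≤
      P (x i) - ip (fun j => P (y j)) β by
        have := hTle ⟨⟨P, hP⟩, hinv⟩ i
        change -(T : ℤ) ≤ P (x i) at this
        linarith)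
    rw [rval_ge_term] at h3
    push_cast at h3
    exact h3)
  refine ⟨h1.1, fun _ j => ?_⟩
  have h2 := h1.2 j
  push_cast
  exact h2

lemma wt_finite [IsAlgClosed k] [CharZero k] (hS : Sys X x y 𝒢) (ht : IsTorus k (coord x y)) :
    {β | wt ht X 𝒢 β ≠ ⊥}.Finite := by
  classical
  obtain ⟨d, hd⟩ := wt_bound hS ht
  apply (Set.Finite.pi' (ι := Fin s) (t := fun _ => Set.Icc (-(d : ℤ)) d)
    fun _ => Set.finite_Icc _ _).subset
  intro β hβ j
  obtain ⟨δ, hδ, hδ0⟩ := Submodule.exists_mem_ne_zero_of_ne_bot hβ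
  obtain ⟨i, hi⟩ : ∃ i, δ (MvPolynomial.X i) ≠ 0 := by
    by_contra hcon
    push Not at hcon
    apply hδ0
    apply MvPolynomial.derivation_ext
    intro i
    rw [hcon i]
    rfl
  have h1 := (hd β δ hδ i).2 hi j
  rw [abs_le] at h1
  exact h1

end

section

variable {k : Type u} {L : Type v} [Field k] [Field L] [Algebra k L] [IsAlgClosed k]
  [CharZero k] {r s : ℕ} {x : Fin r → L} {y : Fin s → L} {X : ProjVar k L}
  {𝒟 : Set ((Fin s → ℤ) × Derivation k (MvPolynomial (Fin r) k) (MvPolynomial (Fin r) k))}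

lemma mem_wt (h : IsSolvableCompactification x y 𝒟 X) {D : _} (hD : D ∈ 𝒟) :
    D.2 ∈ wt (isTorus_of h) X (groups h) D.1 := by
  refine ⟨h.tri D hD, fun P n f hf => ?_⟩
  rw [rval_ge_term]
  apply ge_of_inv h P.2 hD
  rwa [← rval_ge]

/-- The data of the boundary. -/
theorem exists_sdata (h : IsSolvableCompactification x y 𝒟 X) :
    ∃ B : SData k r s (Bd X (groups h)), IsData (isTorus_of h) B := by
  classical
  have hS := sys_of h
  have ht := isTorus_of h
  obtain ⟨d, hd⟩ := wt_bound hS ht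
  obtain ⟨m, δ, β, h1, h2, h3⟩ := exists_malcev (wt ht X (groups h)) (fun β δ hδ => hδ.1)
    (fun β β' δ hδ δ' hδ' => wt_bracket ht hδ hδ') d (fun β δ hδ i => (hd β δ hδ i).1)
    (wt_finite hS ht)
  obtain ⟨C, hC⟩ := deg_bound hS ht
  refine ⟨{
    m := m
    F := {
      δ := δ
      ω := β
      malcev := fun a b => by
        refine Submodule.span_mono ?_ (h3 a b)
        rintro D ⟨c, h4, h5, h6, rfl⟩
        exact ⟨c, ⟨h4, h5, h6⟩, rfl⟩
      nil := fun a f => locNil_of_tri (h1 a).1 f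
      ker := fun f hf => by
        obtain ⟨c, hc⟩ := h.trans f (by
          intro D hD
          have h4 := mem_wt h hD
          have h5 : wt (isTorus_of h) X (groups h) D.1 = _ := h2 D.1
          rw [h5] at h4
          refine Submodule.span_induction (p := fun D' _ => D' f = 0) ?_ rfl ?_ ?_ h4
          · rintro D' ⟨c, -, rfl⟩
            exact hf c
          · intro a b _ _ ha hb
            rw [Derivation.add_apply, ha, hb, add_zero]
          · intro c a _ ha
            rw [Derivation.smul_apply, ha, smul_zero])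
        exact ⟨c, hc⟩ }
    v := fun P => rval ht P.1.1
    w := fun P j => P.1.1 (y j)
    mono := fun P a n f hf => (h1 a).2 P n f hf
    C := C
    deg_le := fun T u f hf0 hf => by
      apply hC T f u hf0
      intro P hP hinv
      have h4 := hf ⟨⟨P, hP⟩, hinv⟩
      rw [rval_ge_term] at h4
      push_cast at h4
      exact h4 }, ⟨fun P => rfl, fun P => rfl⟩⟩

/-- The section spaces of all divisors on a solvable compactification are described by the
combinatorial data of the boundary. -/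
theorem geomS (h : IsSolvableCompactification x y 𝒟 X) :
    ∃ (H : Type v) (_ : Fintype H) (B : SData k r s H), ∀ D : X.Div, ∃ (N : ℕ) (M : H → ℤ),
      1 ≤ N ∧ (∀ n : ℕ, X.h0 (((N * n : ℕ) : ℚ) • D) = sdim (B.sec (n • M))) ∧
      ∀ A : X.Div, ∃ A' : H → ℤ, ∀ m : ℕ,
        X.h0 ((m : ℚ) • D + A) ≤ sdim (B.sec ((m / N) • M + A')) := by
  obtain ⟨B, hB⟩ := exists_sdata h
  exact ⟨Bd X (groups h), (finite_inv (sys_of h) (isTorus_of h)).fintype, B, fun D =>
    geom_of (sys_of h) (isTorus_of h) (fun P hP => tinv_of_inv h hP) hB D⟩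

end

end Pool.Agent.Helper92.KS
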