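import Mathlib

set_option autoImplicit false

/-!
# Project KS: exponentials of locally nilpotent derivations

PROOFS.
* `psi`: multiplicativity. For `F f g := Ψ (f g) - Ψ f * Ψ g` (power series with `coeff n (Ψ f) =
  (n!)⁻¹ • δ^[n] f`) one has `coeff 0 (F f g) = 0` and `(n + 1) • coeff (n + 1) (F f g) =
  coeff n (F (δ f) g) + coeff n (F f (δ g))` (Leibniz rule for the derivative of power series,
  `PowerSeries.derivative`; `d/dT (Ψ f) = Ψ (δ f)`), so all coefficients vanish by induction on `n`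
  for all `f, g`.
* `psiP`: for locally nilpotent `δ` the power series `Ψ f` is (the coercion of) a polynomial;
  `Polynomial.coe_injective` gives the ring axioms.
* `expHom δ hδ φ t := Polynomial.eval₂ φ t ∘ psiP`.
* `expHom_expHom`: `∑_m ∑_n (m!)⁻¹ (n!)⁻¹ φ (δ^[n+m] f) t^n t'^m = ∑_p (p!)⁻¹ φ (δ^[p] f) (t+t')^p`.
-/

namespace Pool.Agent.Helper92.KS

open Finset


variable {k R A : Type*} [Field k] [CommRing R] [Algebra k R] [CommRing A] [Algebra k A]

/-- The derivation is locally nilpotent. -/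
def LocNil (δ : Derivation k R R) : Prop := ∀ f, ∃ n, δ^[n] f = 0

lemma iterate_eq_zero_of_le {δ : Derivation k R R} {f : R} {n m : ℕ} (hnm : n ≤ m)
    (h : δ^[n] f = 0) : δ^[m] f = 0 := by
  obtain ⟨d, rfl⟩ := Nat.exists_eq_add_of_le' hnm
  rw [Function.iterate_add_apply, h]
  exact iterate_map_zero δ d

/-- The coefficients of the Taylor series. -/
private noncomputable def cf (δ : Derivation k R R) (f : R) : PowerSeries R :=
  PowerSeries.mk fun n => ((n.factorial : ℕ) : k)⁻¹ • δ^[n] f

private lemma coeff_cf (δ : Derivation k R R) (f : R) (n : ℕ) :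
    PowerSeries.coeff n (cf δ f) = ((n.factorial : ℕ) : k)⁻¹ • δ^[n] f := by
  rw [cf, PowerSeries.coeff_mk]

private lemma iter_add (δ : Derivation k R R) (n : ℕ) (f g : R) :
    δ^[n] (f + g) = δ^[n] f + δ^[n] g := iterate_map_add δ n f g

private lemma iter_smul (δ : Derivation k R R) (n : ℕ) (c : k) (f : R) :
    δ^[n] (c • f) = c • δ^[n] f := by
  induction n generalizing f with
  | zero => rfl
  | succ n ih => rw [Function.iterate_succ_apply, Function.iterate_succ_apply, δ.map_smul, ih]

private lemma cf_add (δ : Derivation k R R) (f g : R) : cf δ (f + g) = cf δ f + cf δ g := by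
  ext n
  rw [map_add, coeff_cf, coeff_cf, coeff_cf, iter_add, smul_add]

private lemma cf_smul (δ : Derivation k R R) (c : k) (f : R) : cf δ (c • f) = c • cf δ f := by
  ext n
  rw [PowerSeries.coeff_smul, coeff_cf, coeff_cf, iter_smul, smul_comm]

private lemma deriv_cf [CharZero k] (δ : Derivation k R R) (f : R) :
    PowerSeries.derivative R (cf δ f) = cf δ (δ f) := by
  ext n
  rw [PowerSeries.coeff_derivative, coeff_cf, coeff_cf, Function.iterate_succ_apply]
  have h1 : ((n : R) + 1) = algebraMap k R ((n : k) + 1) := by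
    rw [map_add, map_natCast, map_one]
  rw [h1, mul_comm, ← Algebra.smul_def, smul_smul, Nat.factorial_succ, Nat.cast_mul, mul_inv]
  have h2 : ((n : k) + 1) ≠ 0 := by exact_mod_cast Nat.succ_ne_zero n
  rw [← mul_assoc, Nat.cast_add, Nat.cast_one, mul_inv_cancel₀ h2, one_mul]

private lemma cf_mul [CharZero k] (δ : Derivation k R R) (f g : R) :
    cf δ (f * g) = cf δ f * cf δ g := by
  have key : ∀ n : ℕ, ∀ f g : R, PowerSeries.coeff n (cf δ (f * g)) =
      PowerSeries.coeff n (cf δ f * cf δ g) := by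
    intro n
    induction n with
    | zero =>
      intro f g
      rw [PowerSeries.coeff_mul]
      simp [coeff_cf]
    | succ n ih =>
      intro f g
      have h1 : PowerSeries.coeff n (PowerSeries.derivative R (cf δ (f * g))) =
          PowerSeries.coeff n (PowerSeries.derivative R (cf δ f * cf δ g)) := by
        rw [deriv_cf, Derivation.leibniz, Derivation.leibniz, deriv_cf, deriv_cf, cf_add, map_add,
          map_add]
        simp only [smul_eq_mul]
        rw [ih, ih]
      rw [PowerSeries.coeff_derivative, PowerSeries.coeff_derivative] at h1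
      have h2 : ((n : R) + 1) = algebraMap k R ((n : k) + 1) := by
        rw [map_add, map_natCast, map_one]
      have h3 : ((n : k) + 1) ≠ 0 := by exact_mod_cast Nat.succ_ne_zero n
      have h4 : IsUnit ((n : R) + 1) := by
        rw [h2]
        exact (IsUnit.mk0 _ h3).map (algebraMap k R)
      exact h4.mul_right_cancel h1
  ext n
  exact key n f g

private lemma iter_one (δ : Derivation k R R) (n : ℕ) : δ^[n + 1] (1 : R) = 0 := by
  rw [Function.iterate_succ_apply, δ.map_one_eq_zero]
  exact iterate_map_zero δ n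

private lemma cf_one (δ : Derivation k R R) : cf δ 1 = 1 := by
  ext n
  rw [coeff_cf]
  cases n with
  | zero => simp
  | succ n => rw [iter_one, smul_zero, PowerSeries.coeff_one, if_neg (Nat.succ_ne_zero n)]

/-- The Taylor series of a derivation. -/
theorem exists_psi [CharZero k] (δ : Derivation k R R) :
    ∃ Ψ : R →ₐ[k] PowerSeries R, ∀ f n, PowerSeries.coeff n (Ψ f) = ((n.factorial : ℕ) : k)⁻¹ • δ^[n] f := by
  refine ⟨AlgHom.ofLinearMap
    { toFun := cf δ
      map_add' := cf_add δ
      map_smul' := cf_smul δ } (cf_one δ) (fun f g => cf_mul δ f g), fun f n => ?_⟩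
  exact coeff_cf δ f n

/-- The Taylor polynomial of a locally nilpotent derivation. -/
theorem exists_psiP [CharZero k] (δ : Derivation k R R) (hδ : LocNil δ) :
    ∃ Ψ : R →ₐ[k] Polynomial R, ∀ f n, (Ψ f).coeff n = ((n.factorial : ℕ) : k)⁻¹ • δ^[n] f := by
  classical
  obtain ⟨Ψ, hΨ⟩ := exists_psi δ
  choose N hN using hδ
  have hco : ∀ f : R, ((∑ n ∈ range (N f), Polynomial.monomial n
      (((n.factorial : ℕ) : k)⁻¹ • δ^[n] f) : Polynomial R) : PowerSeries R) = Ψ f := by
    intro f
    ext n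
    rw [Polynomial.coeff_coe, hΨ, Polynomial.finsetSum_coeff]
    simp only [Polynomial.coeff_monomial]
    rw [Finset.sum_ite_eq']
    by_cases h : n ∈ range (N f)
    · rw [if_pos h]
    · rw [if_neg h, iterate_eq_zero_of_le (not_lt.1 fun h' => h (mem_range.2 h')) (hN f), smul_zero]
  refine ⟨AlgHom.ofLinearMap
    { toFun := fun f => ∑ n ∈ range (N f), Polynomial.monomial n
        (((n.factorial : ℕ) : k)⁻¹ • δ^[n] f)
      map_add' := fun f g => Polynomial.coe_injective R ?_
      map_smul' := fun c f => Polynomial.coe_injective R ?_ } (Polynomial.coe_injective R ?_)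
      (fun f g => Polynomial.coe_injective R ?_), fun f n => ?_⟩
  · rw [hco, Polynomial.coe_add, hco, hco, map_add]
  · rw [hco, map_smul, ← hco f]
    ext n
    simp
  · change ((∑ n ∈ range (N 1), Polynomial.monomial n
      (((n.factorial : ℕ) : k)⁻¹ • δ^[n] (1 : R)) : Polynomial R) : PowerSeries R) = _
    rw [hco, map_one, Polynomial.coe_one]
  · change ((∑ n ∈ range (N (f * g)), Polynomial.monomial n
      (((n.factorial : ℕ) : k)⁻¹ • δ^[n] (f * g)) : Polynomial R) : PowerSeries R) =
      (((∑ n ∈ range (N f), Polynomial.monomial n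
        (((n.factorial : ℕ) : k)⁻¹ • δ^[n] f)) * (∑ n ∈ range (N g), Polynomial.monomial n
        (((n.factorial : ℕ) : k)⁻¹ • δ^[n] g)) : Polynomial R) : PowerSeries R)
    rw [hco, Polynomial.coe_mul, hco, hco, map_mul]
  · change (∑ n ∈ range (N f), Polynomial.monomial n
      (((n.factorial : ℕ) : k)⁻¹ • δ^[n] f) : Polynomial R).coeff n = _
    rw [← Polynomial.coeff_coe, hco, hΨ]

/-- The exponential of `t δ`, applied after `φ`. -/
theorem exists_expHom [CharZero k] (δ : Derivation k R R) (hδ : LocNil δ) (φ : R →ₐ[k] A) (t : A) :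
    ∃ Φ : R →ₐ[k] A, ∀ (f : R) (N : ℕ), δ^[N] f = 0 →
      Φ f = ∑ n ∈ range N, ((n.factorial : ℕ) : k)⁻¹ • (φ (δ^[n] f) * t ^ n) := by
  obtain ⟨Ψ, hΨ⟩ := exists_psiP δ hδ
  refine ⟨(((Polynomial.aeval t : Polynomial A →ₐ[A] A).restrictScalars k).comp
    (Polynomial.mapAlgHom φ)).comp Ψ, fun f N hN => ?_⟩
  have h1 : ((((Polynomial.aeval t : Polynomial A →ₐ[A] A).restrictScalars k).comp
    (Polynomial.mapAlgHom φ)).comp Ψ) f = (Polynomial.mapAlgHom φ (Ψ f)).eval t := by
    rw [AlgHom.comp_apply, AlgHom.comp_apply, AlgHom.restrictScalars_apply,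
      Polynomial.coe_aeval_eq_eval]
  have h2 : (Polynomial.mapAlgHom φ (Ψ f)).natDegree < N + 1 := by
    rw [Nat.lt_succ_iff, Polynomial.natDegree_le_iff_coeff_eq_zero]
    intro m hm
    rw [Polynomial.coeff_mapAlgHom_apply, hΨ, iterate_eq_zero_of_le hm.le hN, smul_zero, map_zero]
  rw [h1, Polynomial.eval_eq_sum_range' h2, sum_range_succ, Polynomial.coeff_mapAlgHom_apply, hΨ, hN,
    smul_zero, map_zero, zero_mul, add_zero]
  refine sum_congr rfl fun n _ => ?_
  rw [Polynomial.coeff_mapAlgHom_apply, hΨ, map_smul, smul_mul_assoc]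

/-- The exponential of `t δ`, applied after `φ`. -/
noncomputable def expHom [CharZero k] (δ : Derivation k R R) (hδ : LocNil δ) (φ : R →ₐ[k] A)
    (t : A) : R →ₐ[k] A := (exists_expHom δ hδ φ t).choose

lemma expHom_apply [CharZero k] (δ : Derivation k R R) (hδ : LocNil δ) (φ : R →ₐ[k] A) (t : A)
    (f : R) (N : ℕ) (hN : δ^[N] f = 0) :
    expHom δ hδ φ t f = ∑ n ∈ range N, ((n.factorial : ℕ) : k)⁻¹ • (φ (δ^[n] f) * t ^ n) :=
  (exists_expHom δ hδ φ t).choose_spec f N hN

/-- The group law. -/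
theorem expHom_expHom [CharZero k] (δ : Derivation k R R) (hδ : LocNil δ) (φ : R →ₐ[k] A)
    (t t' : A) : expHom δ hδ (expHom δ hδ φ t) t' = expHom δ hδ φ (t + t') := by
  ext f
  obtain ⟨N, hN⟩ := hδ f
  rw [expHom_apply δ hδ _ t' f N hN, expHom_apply δ hδ φ (t + t') f N hN]
  have h1 : ∀ m, expHom δ hδ φ t (δ^[m] f) =
      ∑ n ∈ range (N - m), ((n.factorial : ℕ) : k)⁻¹ • (φ (δ^[n] (δ^[m] f)) * t ^ n) := by
    intro m
    refine expHom_apply δ hδ φ t (δ^[m] f) (N - m) ?_
    rw [← Function.iterate_add_apply]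
    exact iterate_eq_zero_of_le (by omega) hN
  calc ∑ m ∈ range N, ((m.factorial : ℕ) : k)⁻¹ • (expHom δ hδ φ t (δ^[m] f) * t' ^ m)
      = ∑ m ∈ range N, ∑ n ∈ range (N - m), ((m.factorial : ℕ) : k)⁻¹ •
          ((((n.factorial : ℕ) : k)⁻¹ • (φ (δ^[n] (δ^[m] f)) * t ^ n)) * t' ^ m) := by
        refine sum_congr rfl fun m _ => ?_
        rw [h1, sum_mul, smul_sum]
    _ = ∑ p ∈ range N, ∑ m ∈ range (p + 1), ((m.factorial : ℕ) : k)⁻¹ •
          (((((p - m).factorial : ℕ) : k)⁻¹ • (φ (δ^[p - m] (δ^[m] f)) * t ^ (p - m))) *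
            t' ^ m) :=
        (sum_range_diag_flip N fun m n => ((m.factorial : ℕ) : k)⁻¹ •
          ((((n.factorial : ℕ) : k)⁻¹ • (φ (δ^[n] (δ^[m] f)) * t ^ n)) * t' ^ m)).symm
    _ = ∑ p ∈ range N, ((p.factorial : ℕ) : k)⁻¹ • (φ (δ^[p] f) * (t + t') ^ p) := by
        refine sum_congr rfl fun p _ => ?_
        rw [add_comm t t', add_pow, mul_sum, smul_sum]
        refine sum_congr rfl fun m hm => ?_
        have hmp : m ≤ p := Nat.lt_succ_iff.1 (mem_range.1 hm)
        rw [← Function.iterate_add_apply, Nat.sub_add_cancel hmp, smul_mul_assoc, smul_smul]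
        have h2 : ((p.choose m : ℕ) : A) = algebraMap k A ((p.choose m : ℕ) : k) := by
          rw [map_natCast]
        have h3 : φ (δ^[p] f) * (t' ^ m * t ^ (p - m) * ((p.choose m : ℕ) : A)) =
            ((p.choose m : ℕ) : k) • (φ (δ^[p] f) * t ^ (p - m) * t' ^ m) := by
          rw [h2, Algebra.smul_def]
          ring
        rw [h3, smul_smul]
        congr 1
        have h4 := Nat.choose_mul_factorial_mul_factorial hmp
        have h5 : ((p.factorial : ℕ) : k) =
            ((p.choose m : ℕ) : k) * (m.factorial : k) * ((p - m).factorial : k) := by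
          rw [← h4]
          push_cast
          ring
        have h6 : (m.factorial : k) ≠ 0 := by exact_mod_cast Nat.factorial_ne_zero m
        have h7 : ((p - m).factorial : k) ≠ 0 := by exact_mod_cast Nat.factorial_ne_zero (p - m)
        have h8 : ((p.choose m : ℕ) : k) ≠ 0 := by
          exact_mod_cast (Nat.choose_pos hmp).ne'
        rw [h5]
        field_simp

lemma expHom_zero [CharZero k] (δ : Derivation k R R) (hδ : LocNil δ) (φ : R →ₐ[k] A) :
    expHom δ hδ φ 0 = φ := by
  ext f
  obtain ⟨N, hN⟩ := hδ f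
  rw [expHom_apply δ hδ φ 0 f (N + 1) (iterate_eq_zero_of_le (Nat.le_succ N) hN),
    sum_range_succ']
  have h : ∀ n ∈ range N, (((n + 1).factorial : ℕ) : k)⁻¹ • (φ (δ^[n + 1] f) * (0 : A) ^ (n + 1)) =
      0 := fun n _ => by rw [zero_pow (Nat.succ_ne_zero n), mul_zero, smul_zero]
  rw [sum_congr rfl h, sum_const_zero, zero_add]
  simp

/-- Composition with a homomorphism. -/
lemma comp_expHom [CharZero k] {B : Type*} [CommRing B] [Algebra k B] (δ : Derivation k R R)
    (hδ : LocNil δ) (φ : R →ₐ[k] A) (t : A) (σ : A →ₐ[k] B) :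
    σ.comp (expHom δ hδ φ t) = expHom δ hδ (σ.comp φ) (σ t) := by
  ext f
  obtain ⟨N, hN⟩ := hδ f
  rw [AlgHom.comp_apply, expHom_apply δ hδ φ t f N hN, expHom_apply δ hδ (σ.comp φ) (σ t) f N hN,
    map_sum]
  refine sum_congr rfl fun n _ => ?_
  rw [map_smul, map_mul, map_pow, AlgHom.comp_apply]

/-- A polynomial in `c` with values in a subspace for all `c` has its coefficients there. -/
theorem mem_of_forall_sum_mem {V : Type*} [Infinite k] [AddCommGroup V] [Module k V]
    (W : Submodule k V) (N : ℕ) (z : ℕ → V)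
    (h : ∀ c : k, ∑ n ∈ range N, c ^ n • z n ∈ W) : ∀ n < N, z n ∈ W := by
  intro n hn
  by_contra hz
  obtain ⟨l, hl, hW⟩ := Submodule.exists_le_ker_of_notMem hz
  have h1 : (∑ i ∈ range N, Polynomial.monomial i (l (z i)) : Polynomial k) = 0 := by
    apply Polynomial.funext
    intro c
    rw [Polynomial.eval_finsetSum, Polynomial.eval_zero]
    have h2 : l (∑ i ∈ range N, c ^ i • z i) = 0 := LinearMap.mem_ker.1 (hW (h c))
    rw [map_sum] at h2
    rw [← h2]
    refine sum_congr rfl fun i _ => ?_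
    rw [Polynomial.eval_monomial, map_smul, smul_eq_mul, mul_comm]
  have h3 := congrArg (fun q : Polynomial k => q.coeff n) h1
  simp only [Polynomial.finsetSum_coeff, Polynomial.coeff_monomial, Polynomial.coeff_zero] at h3
  rw [sum_ite_eq', if_pos (mem_range.2 hn)] at h3
  exact hl h3

end Pool.Agent.Helper92.KS
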