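import Pool.Agent.Helper92.KS.Tri

set_option autoImplicit false

/-!
# Project KS: a finite Malcev family

`F β` is the space of the derivations of weight `β`. PROOF of `exists_malcev`. The degrees of
`δ (X i)` for `δ ∈ F β`, all `β`, are bounded by some `d` and only finitely many `β` have
`F β ≠ ⊥` (hypotheses). Give `X i` the weight `om i := (d + 1) ^ (i + 1)` (any `om` with
`d * om j < om i` for `j < i`, and `0 < om i`): every monomial of `δ (X i)` has weight `< om i`
(it is a product of at most `d` variables `X j`, `j < i`). For `e : ℕ` let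
`F e β := {δ ∈ F β | every monomial of δ (X i) has weight + e ≤ om i, for all i}`; `F 1 β = F β`,
`F e β = ⊥` for `e > max om` (`e > om i` for all `i`), `⁅F e β, F e' β'⁆ ⊆ F (e + e') (β + β')`
(because a derivation of level `e` lowers the weight of every monomial by at least `e`). All `F e β`
are finite dimensional. For every `e` in `1..E` and every one of the finitely many `β` choose a
finite spanning family of `F e β`; let `ι` be the disjoint union of the index sets, with the
height `e : ι → ℕ`, and sort (`Tuple.sort`) so that `e` becomes monotone on `Fin m`. No linear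
independence is needed: for `δ` of level `e`, `δ'` of level `e'` the bracket is in
`F (e + e') (β + β')`, the span of members of the family of height `e + e' > e, e'` (or it is `0`).
-/

namespace Pool.Agent.Helper92.KS

open MvPolynomial

variable {k : Type*} [Field k] {r : ℕ}

/-- The weight of a monomial for the weights `(d + 1) ^ (j + 1)` of the variables. -/
private def wt (d : ℕ) (s : Fin r →₀ ℕ) : ℕ := ∑ j, s j * (d + 1) ^ ((j : ℕ) + 1)

private theorem wt_add (d : ℕ) (s t : Fin r →₀ ℕ) : wt d (s + t) = wt d s + wt d t := by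
  simp only [wt, Finsupp.add_apply, add_mul, Finset.sum_add_distrib]

private theorem wt_single (d : ℕ) (i : Fin r) :
    wt d (Finsupp.single i 1) = (d + 1) ^ ((i : ℕ) + 1) := by
  classical
  simp only [wt, Finsupp.single_apply, ite_mul, one_mul, zero_mul]
  rw [Finset.sum_ite_eq Finset.univ i]
  simp

/-- The derivations lowering the weight by at least `e`. -/
private def LevSub (k : Type*) [Field k] (r : ℕ) (d e : ℕ) :
    Submodule k (Derivation k (MvPolynomial (Fin r) k) (MvPolynomial (Fin r) k)) where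
  carrier := {δ | ∀ i : Fin r, ∀ s : Fin r →₀ ℕ, (d + 1) ^ ((i : ℕ) + 1) < wt d s + e →
    coeff s (δ (X i)) = 0}
  add_mem' := by
    intro δ δ' h h' i s hs
    rw [Derivation.add_apply, coeff_add, h i s hs, h' i s hs, add_zero]
  zero_mem' := by
    intro i s _
    rw [Derivation.zero_apply, coeff_zero]
  smul_mem' := by
    intro c δ h i s hs
    rw [Derivation.smul_apply, coeff_smul, h i s hs, smul_zero]

private theorem supp_mon (δ : Derivation k (MvPolynomial (Fin r) k) (MvPolynomial (Fin r) k))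
    (t : Fin r →₀ ℕ) (c : k) {s : Fin r →₀ ℕ} (hs : s ∈ (δ (monomial t c)).support) :
    ∃ i, ∃ n ∈ (δ (X i)).support, t i ≠ 0 ∧ s + Finsupp.single i 1 = t + n := by
  classical
  have hd : δ = mkDerivation k (fun i => δ (X i)) := by
    refine derivation_ext fun i => ?_
    rw [mkDerivation_X]
  rw [hd, mkDerivation_monomial] at hs
  have hs1 := support_smul hs
  rw [Finsupp.sum] at hs1
  obtain ⟨i, hi, hs2⟩ := Finset.mem_biUnion.1 (support_sum hs1)
  rw [smul_eq_mul] at hs2
  obtain ⟨u, hu, n, hn, hun⟩ := Finset.mem_add.1 (support_mul _ _ hs2)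
  have hu' : u = t - Finsupp.single i 1 := by
    have := support_monomial_subset hu
    exact Finset.mem_singleton.1 this
  have hti : t i ≠ 0 := Finsupp.mem_support_iff.1 hi
  refine ⟨i, n, hn, hti, ?_⟩
  rw [← hun, hu']
  ext j
  simp only [Finsupp.add_apply, Finsupp.tsub_apply, Finsupp.single_apply]
  by_cases hij : i = j
  · subst hij
    simp only [if_true]
    omega
  · simp only [if_neg hij]
    omega

private theorem lev_apply {d e : ℕ}
    {δ : Derivation k (MvPolynomial (Fin r) k) (MvPolynomial (Fin r) k)}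
    (hδ : δ ∈ LevSub k r d e) (f : MvPolynomial (Fin r) k) (W e' : ℕ)
    (hf : ∀ s, W < wt d s + e' → coeff s f = 0) (s : Fin r →₀ ℕ)
    (hs : W < wt d s + (e + e')) : coeff s (δ f) = 0 := by
  classical
  by_contra hne
  have hs0 : s ∈ (δ f).support := mem_support_iff.2 hne
  have hf' : δ f = ∑ t ∈ f.support, δ (monomial t (coeff t f)) := by
    conv_lhs => rw [f.as_sum]
    rw [map_sum]
  rw [hf'] at hs0
  obtain ⟨t, ht, hs2⟩ := Finset.mem_biUnion.1 (support_sum hs0)
  obtain ⟨i, n, hn, hti, hst⟩ := supp_mon δ t _ hs2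
  have h1 : wt d t + e' ≤ W := by
    by_contra hc
    exact (mem_support_iff.1 ht) (hf t (not_le.1 hc))
  have h2 : wt d n + e ≤ (d + 1) ^ ((i : ℕ) + 1) := by
    by_contra hc
    exact (mem_support_iff.1 hn) (hδ i n (not_le.1 hc))
  have h3 := congrArg (wt d) hst
  rw [wt_add, wt_add, wt_single] at h3
  omega

private theorem lev_bracket {d e e' : ℕ}
    {δ δ' : Derivation k (MvPolynomial (Fin r) k) (MvPolynomial (Fin r) k)}
    (hδ : δ ∈ LevSub k r d e) (hδ' : δ' ∈ LevSub k r d e') :
    ⁅δ, δ'⁆ ∈ LevSub k r d (e + e') := by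
  intro i s hs
  rw [Derivation.commutator_apply, coeff_sub,
    lev_apply hδ (δ' (X i)) _ e' (hδ' i) s hs,
    lev_apply hδ' (δ (X i)) _ e (hδ i) s (by omega), sub_zero]

private theorem lev_one {d : ℕ}
    {δ : Derivation k (MvPolynomial (Fin r) k) (MvPolynomial (Fin r) k)}
    (htri : Tri δ) (hd : ∀ i, (δ (X i)).totalDegree ≤ d) : δ ∈ LevSub k r d 1 := by
  classical
  intro i s hs
  by_contra hne
  have hs0 : s ∈ (δ (X i)).support := mem_support_iff.2 hne
  have hsj : ∀ j, i ≤ j → s j = 0 := by
    intro j hij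
    by_contra hne
    have hv : j ∈ (δ (X i)).vars :=
      (mem_vars_iff_mem_support j).2 ⟨s, hs0, Finsupp.mem_support_iff.2 hne⟩
    have h3 : j ∈ {j : Fin r | j < i} := (mem_supported.1 (htri i)) hv
    exact absurd hij (not_le.2 h3)
  have hdeg : ∑ j, s j ≤ d := by
    have h1 := (le_totalDegree hs0).trans (hd i)
    rwa [Finsupp.sum_fintype _ _ (fun _ => rfl)] at h1
  have hle : wt d s ≤ d * (d + 1) ^ (i : ℕ) := by
    calc wt d s = ∑ j, s j * (d + 1) ^ ((j : ℕ) + 1) := rfl
      _ ≤ ∑ j, s j * (d + 1) ^ (i : ℕ) := by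
        refine Finset.sum_le_sum fun j _ => ?_
        rcases le_or_gt i j with hij | hij
        · rw [hsj j hij, zero_mul, zero_mul]
        · exact Nat.mul_le_mul_left _ (Nat.pow_le_pow_right (by omega) hij)
      _ = (∑ j, s j) * (d + 1) ^ (i : ℕ) := by rw [Finset.sum_mul]
      _ ≤ d * (d + 1) ^ (i : ℕ) := Nat.mul_le_mul_right _ hdeg
  have hpos : 0 < (d + 1) ^ (i : ℕ) := by positivity
  rw [pow_succ, mul_comm ((d + 1) ^ (i : ℕ))  (d + 1), add_mul, one_mul] at hs
  omega

private theorem lev_big {d e : ℕ} (he : ∀ i : Fin r, (d + 1) ^ ((i : ℕ) + 1) < e)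
    {δ : Derivation k (MvPolynomial (Fin r) k) (MvPolynomial (Fin r) k)}
    (hδ : δ ∈ LevSub k r d e) : δ = 0 := by
  refine derivation_ext fun i => ?_
  rw [Derivation.zero_apply]
  ext s
  rw [coeff_zero]
  exact hδ i s (lt_of_lt_of_le (he i) (Nat.le_add_left _ _))

private theorem fg_of_le (d : ℕ)
    (V : Submodule k (Derivation k (MvPolynomial (Fin r) k) (MvPolynomial (Fin r) k)))
    (hd : ∀ δ ∈ V, ∀ i, (δ (X i)).totalDegree ≤ d) : V.FG := by
  have hev : ∀ i, ∀ δ : V, (δ : Derivation k (MvPolynomial (Fin r) k) (MvPolynomial (Fin r) k))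
      (X i) ∈ restrictTotalDegree (Fin r) k d := fun i δ =>
    (mem_restrictTotalDegree (R := k) (σ := Fin r) (m := d) _).2 (hd δ δ.2 i)
  let Φ : V →ₗ[k] (Fin r → restrictTotalDegree (Fin r) k d) :=
    { toFun := fun δ i => ⟨_, hev i δ⟩
      map_add' := by
        intro δ δ'
        funext i
        exact Subtype.ext rfl
      map_smul' := by
        intro c δ
        funext i
        exact Subtype.ext rfl }
  have hinj : Function.Injective Φ := by
    intro δ δ' h
    refine Subtype.ext (derivation_ext fun i => ?_)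
    have := congrFun h i
    exact congrArg Subtype.val this
  have hfin : Module.Finite k V := Module.Finite.of_injective Φ hinj
  exact Module.Finite.iff_fg.1 hfin

/-- A finite family of triangular derivations, spanning the given spaces, with the Malcev
property. -/
theorem exists_malcev {G : Type*} [AddCommGroup G]
    (F : G → Submodule k (Derivation k (MvPolynomial (Fin r) k) (MvPolynomial (Fin r) k)))
    (htri : ∀ β, ∀ δ ∈ F β, Tri δ)
    (hbr : ∀ β β', ∀ δ ∈ F β, ∀ δ' ∈ F β', ⁅δ, δ'⁆ ∈ F (β + β'))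
    (d : ℕ) (hd : ∀ β, ∀ δ ∈ F β, ∀ i, (δ (X i)).totalDegree ≤ d)
    (hfin : {β | F β ≠ ⊥}.Finite) :
    ∃ (m : ℕ) (δ : Fin m → Derivation k (MvPolynomial (Fin r) k) (MvPolynomial (Fin r) k))
      (β : Fin m → G), (∀ a, δ a ∈ F (β a)) ∧
      (∀ β', F β' = Submodule.span k {D | ∃ c, β c = β' ∧ D = δ c}) ∧
      ∀ a b, ⁅δ a, δ b⁆ ∈ Submodule.span k
        {D | ∃ c, a < c ∧ b < c ∧ β c = β a + β b ∧ D = δ c} := by
  classical
  -- the finite index set of weights
  set T : Finset G := hfin.toFinset with hT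
  have hTmem : ∀ β, F β ≠ ⊥ → β ∈ T := fun β h => hfin.mem_toFinset.2 h
  -- a bound of the heights
  set E : ℕ := (d + 1) ^ r with hE
  have hEi : ∀ i : Fin r, (d + 1) ^ ((i : ℕ) + 1) ≤ E := fun i =>
    Nat.pow_le_pow_right (by omega) i.2
  -- spanning sets
  have hspan : ∀ (e : ℕ) (β : G), ∃ S : Finset (Derivation k (MvPolynomial (Fin r) k)
      (MvPolynomial (Fin r) k)), Submodule.span k (S : Set _) = F β ⊓ LevSub k r d e := by
    intro e β
    exact fg_of_le d _ (fun δ hδ i => hd β δ hδ.1 i)
  choose S hS using hspan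
  have hSF : ∀ e β, ∀ δ ∈ S e β, δ ∈ F β ∧ δ ∈ LevSub k r d e := by
    intro e β δ hδ
    have h1 : δ ∈ Submodule.span k (S e β : Set _) := Submodule.subset_span hδ
    rw [hS e β] at h1
    exact h1
  -- the index type
  let ι : Type _ := Σ x : ↥((Finset.Icc 1 E) ×ˢ T), ↥(S x.1.1 x.1.2)
  let ht : ι → ℕ := fun x => x.1.1.1
  let en : ι ≃ Fin (Fintype.card ι) := Fintype.equivFin ι
  let σ := Tuple.sort (ht ∘ en.symm)
  have hmono : Monotone ((ht ∘ en.symm) ∘ σ) := Tuple.monotone_sort _
  let g : Fin (Fintype.card ι) → ι := fun a => en.symm (σ a)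
  have hg : Function.Surjective g := fun x => ⟨σ.symm (en x), by simp [g]⟩
  have hgm : ∀ a b, a ≤ b → ht (g a) ≤ ht (g b) := fun a b hab => hmono hab
  have hmem : ∀ x : ι, (x.2 : Derivation k (MvPolynomial (Fin r) k) (MvPolynomial (Fin r) k)) ∈
      F x.1.1.2 ∧ (x.2 : Derivation k (MvPolynomial (Fin r) k) (MvPolynomial (Fin r) k)) ∈
        LevSub k r d (ht x) := fun x => hSF _ _ _ x.2.2
  have hone : ∀ x : ι, 1 ≤ ht x := fun x =>
    (Finset.mem_Icc.1 (Finset.mem_product.1 x.1.2).1).1
  -- members of the spanning sets are members of the family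
  have hfam : ∀ e β, 1 ≤ e → e ≤ E → β ∈ T → ∀ D ∈ S e β, ∃ c, ht (g c) = e ∧
      (g c).1.1.2 = β ∧ D = ((g c).2 : Derivation k (MvPolynomial (Fin r) k)
        (MvPolynomial (Fin r) k)) := by
    intro e β he1 he2 hβ D hD
    obtain ⟨c, hc⟩ := hg ⟨⟨(e, β), Finset.mem_product.2 ⟨Finset.mem_Icc.2 ⟨he1, he2⟩, hβ⟩⟩,
      ⟨D, hD⟩⟩
    refine ⟨c, ?_, ?_, ?_⟩
    · rw [hc]
    · rw [hc]
    · rw [hc]
  refine ⟨Fintype.card ι, fun a => ((g a).2 : Derivation k (MvPolynomial (Fin r) k)
    (MvPolynomial (Fin r) k)), fun a => (g a).1.1.2, fun a => (hmem (g a)).1, ?_, ?_⟩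
  · intro β'
    refine le_antisymm ?_ ?_
    · by_cases hβ : F β' = ⊥
      · rw [hβ]
        exact bot_le
      · rcases Nat.eq_zero_or_pos r with hr | hr
        · exfalso
          apply hβ
          refine (Submodule.eq_bot_iff _).2 fun δ _ => ?_
          refine derivation_ext fun i => ?_
          exact absurd i.2 (by omega)
        · have h1 : F β' = F β' ⊓ LevSub k r d 1 := by
            refine le_antisymm (fun δ hδ => ⟨hδ, lev_one (htri β' δ hδ) (hd β' δ hδ)⟩)
              inf_le_left
          have hE1 : 1 ≤ E := Nat.one_le_pow _ _ (by omega)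
          rw [h1, ← hS 1 β']
          refine Submodule.span_mono ?_
          intro D hD
          obtain ⟨c, -, h2, h3⟩ := hfam 1 β' le_rfl hE1 (hTmem β' hβ) D hD
          exact ⟨c, h2, h3⟩
    · refine Submodule.span_le.2 ?_
      rintro D ⟨c, hc, rfl⟩
      have h1 := (hmem (g c)).1
      have h2 : (g c).1.1.2 = β' := hc
      have h3 : F (g c).1.1.2 = F β' := congrArg F h2
      exact h3.le h1
  · intro a b
    have hF := hbr _ _ _ (hmem (g a)).1 _ (hmem (g b)).1
    have hL := lev_bracket (hmem (g a)).2 (hmem (g b)).2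
    have ha1 := hone (g a)
    have hb1 := hone (g b)
    by_cases hβ : F ((g a).1.1.2 + (g b).1.1.2) = ⊥
    · rw [hβ, Submodule.mem_bot] at hF
      rw [hF]
      exact Submodule.zero_mem _
    · rcases le_or_gt (ht (g a) + ht (g b)) E with hle | hgt
      · have h1 : ⁅((g a).2 : Derivation k (MvPolynomial (Fin r) k) (MvPolynomial (Fin r) k)),
            ((g b).2 : Derivation k (MvPolynomial (Fin r) k) (MvPolynomial (Fin r) k))⁆ ∈
            Submodule.span k (S (ht (g a) + ht (g b)) ((g a).1.1.2 + (g b).1.1.2) : Set _) := by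
          rw [hS]
          exact ⟨hF, hL⟩
        refine Submodule.span_mono ?_ h1
        intro D hD
        obtain ⟨c, h0, h2, h3⟩ := hfam _ _ (by omega) hle (hTmem _ hβ) D hD
        refine ⟨c, ?_, ?_, h2, h3⟩
        · by_contra hc
          have := hgm _ _ (not_lt.1 hc)
          omega
        · by_contra hc
          have := hgm _ _ (not_lt.1 hc)
          omega
      · rw [lev_big (fun i => lt_of_le_of_lt (hEi i) hgt) hL]
        exact Submodule.zero_mem _

end Pool.Agent.Helper92.KS
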