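import Pool.Agent.Helper92.KS.Base

set_option autoImplicit false

/-!
# Project KS, geometry: the prime divisors outside the boundary are given by prime polynomials
-/

namespace Pool.Agent.Helper92.KS

open Pool.Agent.Helper92.Weak MvPolynomial
open Pool.Agent.Helper92.KN (coord lev lev_apply lev_single ne_zero_x ne_zero_y exists_lev_mul
  exists_lev_eq term_mem lev_injective val_mono val_term act aeval_x_ne coord_left coord_right
  aeval_inX)

variable {k L : Type*} [Field k] [Field L] [Algebra k L] {r s : ℕ} {x : Fin r → L} {y : Fin s → L}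

/-- The ring of the valuation is a local ring of `k[x, y, y⁻¹]`. -/
def Good (x : Fin r → L) (y : Fin s → L) (P : DVal k L) : Prop :=
  laur k x y ≤ P.ring ∧ ∀ z ∈ P.ring, ∃ a ∈ laur k x y, ∃ b ∈ laur k x y, b ≠ 0 ∧ P b = 0 ∧
    z = a / b

lemma val_y_eq_zero {P : DVal k L} (hP : laur k x y ≤ P.ring)
    (j : Fin s) : P (y j) = 0 := by
  have h1 := hP (y_mem j)
  have h2 := hP (y_inv_mem j)
  rw [DVal.mem_ring] at h1 h2
  rw [P.map_inv] at h2
  omega

lemma val_mono_eq_zero (h : IsTorus k (coord x y)) {P : DVal k L} (hP : laur k x y ≤ P.ring)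
    (u : Fin s → ℤ) : P (mono y u) = 0 := by
  rw [val_mono h]
  unfold ipair
  exact Finset.sum_eq_zero fun j _ => by simp only [val_y_eq_zero hP j, mul_zero]

lemma aeval_ne (h : IsTorus k (coord x y)) {p : MvPolynomial (Fin (r + s)) k} (hp : p ≠ 0) :
    aeval (coord x y) p ≠ 0 := fun h0 => hp (h.indep (by rw [h0, map_zero]))

/-- Polynomial denominators. -/
lemma exists_poly_div (h : IsTorus k (coord x y)) {P : DVal k L} (hP : laur k x y ≤ P.ring)
    {a b : L} (ha : a ∈ laur k x y) (hb : b ∈ laur k x y) (hb0 : b ≠ 0) (hPb : P b = 0) :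
    ∃ p q : MvPolynomial (Fin (r + s)) k, q ≠ 0 ∧ P (aeval (coord x y) q) = 0 ∧
      a / b = aeval (coord x y) p / aeval (coord x y) q := by
  obtain ⟨u, hu⟩ := exists_mul_mono_eq' h ha
  obtain ⟨v, hv⟩ := exists_mul_mono_eq' h hb
  obtain ⟨p, hp⟩ := hu (fun j => max (u j) (v j)) fun j => le_max_left _ _
  obtain ⟨q, hq⟩ := hv (fun j => max (u j) (v j)) fun j => le_max_right _ _
  have hm := mono_ne_zero (ne_zero_y h) (fun j => max (u j) (v j))
  refine ⟨p, q, ?_, ?_, ?_⟩
  · rintro rfl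
    rw [map_zero] at hq
    exact mul_ne_zero hb0 hm hq
  · rw [← hq, P.map_mul hb0 hm, hPb, val_mono_eq_zero h hP, add_zero]
  · rw [← hp, ← hq, mul_div_mul_right _ _ hm]

/-- The valuations of prime polynomials other than the `y_j` are good. -/
theorem good_polyVal (h : IsTorus k (coord x y)) {p : MvPolynomial (Fin (r + s)) k} (hp : Prime p)
    (hi : ∀ j : Fin s, ¬ p ∣ MvPolynomial.X (Fin.natAdd r j)) : Good x y (polyVal k h p hp) := by
  constructor
  · apply laur_le
    · intro i
      have h1 := polyVal_nonneg k h hp (MvPolynomial.X (Fin.castAdd s i))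
      rwa [aeval_X, coord_left] at h1
    · intro j
      have h1 := polyVal_t k h hp (hi j)
      rw [coord_right] at h1
      rw [DVal.mem_ring, h1]
    · intro j
      have h1 := polyVal_t k h hp (hi j)
      rw [coord_right] at h1
      rw [DVal.mem_ring, DVal.map_inv, h1, neg_zero]
  · intro z hz
    rw [mem_polyVal_ring] at hz
    obtain ⟨a, b, hb, rfl⟩ := hz
    refine ⟨_, aeval_coord_mem a, _, aeval_coord_mem b, ?_, polyVal_eq_zero k h hp hb, rfl⟩
    apply aeval_ne h
    rintro rfl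
    exact hb (dvd_zero p)

/-- A prime polynomial with positive value. -/
lemma exists_prime_pos (h : IsTorus k (coord x y)) {P : DVal k L} (hP : laur k x y ≤ P.ring) :
    ∃ p : MvPolynomial (Fin (r + s)) k, ∃ _ : Prime p, 0 < P (aeval (coord x y) p) := by
  have hPa : ∀ a : MvPolynomial (Fin (r + s)) k, 0 ≤ P (aeval (coord x y) a) := fun a =>
    hP (aeval_coord_mem a)
  have key : ∀ a : MvPolynomial (Fin (r + s)) k, P (aeval (coord x y) a) ≠ 0 →
      ∃ p : MvPolynomial (Fin (r + s)) k, ∃ _ : Prime p, 0 < P (aeval (coord x y) p) := by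
    intro a
    induction a using UniqueFactorizationMonoid.induction_on_prime with
    | h₁ => intro h'; simp at h'
    | h₂ u hu =>
      intro h'
      exfalso
      obtain ⟨w, hw⟩ := isUnit_iff_exists_inv.1 hu
      have h1 := hPa u
      have h2 := hPa w
      have h3 : aeval (coord x y) u * aeval (coord x y) w = (1 : L) := by
        rw [← map_mul, hw, map_one]
      have h4 := P.map_mul (left_ne_zero_of_mul_eq_one h3) (right_ne_zero_of_mul_eq_one h3)
      rw [h3, P.map_one] at h4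
      omega
    | h₃ u p hu hp ih =>
      intro h'
      by_cases h1 : P (aeval (coord x y) p) = 0
      · apply ih
        intro h2
        apply h'
        rw [map_mul, P.map_mul, h1, h2, add_zero]
        · exact aeval_ne h hp.ne_zero
        · exact aeval_ne h hu
      · refine ⟨p, hp, ?_⟩
        have := hPa p
        omega
  obtain ⟨z, hz⟩ := P.surj'
  change P z = 1 at hz
  obtain ⟨u, w, hw, rfl⟩ := exists_aeval_div h z
  have hw' : aeval (coord x y) w ≠ 0 := aeval_ne h (by rintro rfl; exact hw rfl)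
  have hu' : aeval (coord x y) u ≠ 0 := by
    intro h'
    rw [h'] at hz
    simp at hz
  rw [P.map_div hu' hw'] at hz
  by_cases h1 : P (aeval (coord x y) u) = 0
  · exact key w (by omega)
  · exact key u h1

/-- Good valuations are valuations of prime polynomials. -/
theorem Good.exists_polyVal (h : IsTorus k (coord x y)) {P : DVal k L} (hP : Good x y P) :
    ∃ (p : MvPolynomial (Fin (r + s)) k) (hp : Prime p),
      P = polyVal k h p hp ∧ ∀ j : Fin s, ¬ p ∣ MvPolynomial.X (Fin.natAdd r j) := by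
  obtain ⟨p, hp, hpp⟩ := exists_prime_pos h hP.1
  have hle : P.ring ≤ (polyVal k h p hp).ring := by
    intro z hz
    obtain ⟨a, ha, b, hb, hb0, hPb, rfl⟩ := hP.2 z hz
    obtain ⟨p', q, hq0, hPq, hpq⟩ := exists_poly_div h hP.1 ha hb hb0 hPb
    rw [hpq, mem_polyVal_ring]
    refine ⟨p', q, ?_, rfl⟩
    rintro ⟨d, rfl⟩
    rw [map_mul, P.map_mul (aeval_ne h (left_ne_zero_of_mul hq0))
      (aeval_ne h (right_ne_zero_of_mul hq0))] at hPq
    have : 0 ≤ P (aeval (coord x y) d) := hP.1 (aeval_coord_mem d)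
    omega
  have hPeq : P = polyVal k h p hp := DVal.eq_of_ring_le hle
  refine ⟨p, hp, hPeq, fun j hj => ?_⟩
  have h1 := (polyVal_pos_iff k h hp (MvPolynomial.X_ne_zero (Fin.natAdd r j))).2 hj
  rw [aeval_X, ← hPeq, coord_right, val_y_eq_zero hP.1] at h1
  exact lt_irrefl _ h1

variable {X : ProjVar k L} {𝒢 : Set (Subgroup (L ≃ₐ[k] L))}

/-- Translates of good valuations are good. -/
theorem Good.comap (hS : Sys X x y 𝒢) {P : DVal k L} (hP : Good x y P)
    {G : Subgroup (L ≃ₐ[k] L)} (hG : G ∈ 𝒢) {g : L ≃ₐ[k] L} (hg : g ∈ G) :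
    Good x y (P.comap g) := by
  refine ⟨(hS.laur_le_comap hG hg P).2 hP.1, fun z hz => ?_⟩
  obtain ⟨a, ha, b, hb, hb0, hPb, hab⟩ := hP.2 (g z) hz
  have hgg : ∀ w, g (g⁻¹ w) = w := fun w => by
    rw [← AlgEquiv.mul_apply, mul_inv_cancel, AlgEquiv.one_apply]
  refine ⟨g⁻¹ a, hS.pres G hG _ (G.inv_mem hg) a ha, g⁻¹ b, hS.pres G hG _ (G.inv_mem hg) b hb,
    ?_, ?_, ?_⟩
  · intro h0
    apply hb0
    rw [← hgg b, h0, map_zero]
  · rw [DVal.comap_apply, hgg, hPb]
  · apply g.injective
    rw [map_div₀, hgg, hgg, hab]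

/-- Prime divisors outside the boundary whose value on the chart is generic are good. -/
theorem good_of_generic {P' : DVal k L} (hP'X : P' ∈ X.primeDivisors)
    (hP'S : laur k x y ≤ P'.ring)
    (hPx : ∀ j, P' (X.x j / X.x 0) = 0)
    (hPb : ∀ j, ∃ a b : MvPolynomial (Fin (r + s)) k, aeval (coord x y) b ≠ 0 ∧
      P' (aeval (coord x y) b) = 0 ∧ X.x j / X.x 0 = aeval (coord x y) a / aeval (coord x y) b) :
    Good x y P' := by
  have hchart : chart k X.x 0 ≤ P'.ring := by
    rw [ProjVar.chart_le_iff]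
    intro j
    rw [DVal.mem_ring, hPx]
  have hR : locAt _ (posIdeal P' _ hchart) = P'.ring :=
    X.separated (X.locAt_mem 0 _) hP'X (dominates_posIdeal hchart) (Dominates.refl _)
  -- elements with good denominators
  let S : Subalgebra k L :=
    { carrier := {z | ∃ a b : MvPolynomial (Fin (r + s)) k, aeval (coord x y) b ≠ 0 ∧ P' (aeval (coord x y) b) = 0 ∧
        z = aeval (coord x y) a / aeval (coord x y) b}
      mul_mem' := by
        rintro _ _ ⟨a₁, b₁, h1, h2, rfl⟩ ⟨a₂, b₂, h3, h4, rfl⟩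
        refine ⟨a₁ * a₂, b₁ * b₂, ?_, ?_, ?_⟩
        · rw [map_mul]; exact mul_ne_zero h1 h3
        · rw [map_mul, P'.map_mul h1 h3, h2, h4, add_zero]
        · rw [map_mul, map_mul, div_mul_div_comm]
      add_mem' := by
        rintro _ _ ⟨a₁, b₁, h1, h2, rfl⟩ ⟨a₂, b₂, h3, h4, rfl⟩
        refine ⟨a₁ * b₂ + b₁ * a₂, b₁ * b₂, ?_, ?_, ?_⟩
        · rw [map_mul]; exact mul_ne_zero h1 h3
        · rw [map_mul, P'.map_mul h1 h3, h2, h4, add_zero]
        · rw [map_add, map_mul, map_mul, map_mul, div_add_div _ _ h1 h3]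
      algebraMap_mem' := fun c => by
        refine ⟨C c, 1, ?_, ?_, ?_⟩
        · rw [map_one]; exact one_ne_zero
        · rw [map_one, P'.map_one]
        · rw [map_one, div_one, aeval_C] }
  have hchartS : chart k X.x 0 ≤ S := by
    rw [ProjVar.chart_le_iff]
    intro j
    exact hPb j
  have hSinv : ∀ s ∈ S, s ≠ 0 → P' s = 0 → s⁻¹ ∈ S := by
    rintro s ⟨a, b, h1, h2, rfl⟩ hs0 hs
    have ha : aeval (coord x y) a ≠ 0 := by
      intro h'
      rw [h', zero_div] at hs0
      exact hs0 rfl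
    refine ⟨b, a, ha, ?_, inv_div _ _⟩
    rw [P'.map_div ha h1, h2] at hs
    omega
  have hringS : P'.ring ≤ S := by
    rw [← hR]
    rintro z ⟨w, s, hs, hz⟩
    rw [notMem_posIdeal] at hs
    have h1 : z = w * (s : L)⁻¹ := by
      rw [← hz]
      have := hs.1
      field_simp
    rw [h1]
    exact S.mul_mem (hchartS w.2) (hSinv _ (hchartS s.2) hs.1 hs.2)
  refine ⟨hP'S, fun z hz => ?_⟩
  obtain ⟨a, b, hb0, hPb, hab⟩ := hringS hz
  exact ⟨_, aeval_coord_mem a, _, aeval_coord_mem b, hb0, hPb, hab⟩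

/-- Non-invariant prime divisors are given by prime polynomials. -/
theorem Sys.good (hS : Sys X x y 𝒢) (h : IsTorus k (coord x y)) {P : DVal k L}
    (hP : P ∈ X.primeDivisors) (hPS : laur k x y ≤ P.ring) : Good x y P := by
  classical
  obtain ⟨G, hG, hinf⟩ := hS.exists_infinite hPS
  -- the generators of the chart
  choose a b hb hab using fun j => exists_aeval_div h (X.x j / X.x 0)
  have hb' : ∀ j, aeval (coord x y) (b j) ≠ 0 := fun j =>
    aeval_ne h (by intro h0; exact hb j h0)
  have hy : ∀ j, X.x j / X.x 0 ≠ 0 := fun j => div_ne_zero (X.x_ne j) (X.x_ne 0)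
  have hE : ((⋃ j, {P' | P' ∈ X.primeDivisors ∧ P' (aeval (coord x y) (b j)) ≠ 0}) ∪
      ⋃ j, {P' | P' ∈ X.primeDivisors ∧ P' (X.x j / X.x 0) ≠ 0}).Finite :=
    (Set.finite_iUnion fun j => X.finite_support (hb' j)).union
      (Set.finite_iUnion fun j => X.finite_support (hy j))
  obtain ⟨g, hg, hc⟩ : ∃ g ∈ G, P.comap g ∉
      ((⋃ j, {P' | P' ∈ X.primeDivisors ∧ P' (aeval (coord x y) (b j)) ≠ 0}) ∪
      ⋃ j, {P' | P' ∈ X.primeDivisors ∧ P' (X.x j / X.x 0) ≠ 0}) := by
    by_contra hcon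
    push Not at hcon
    apply hinf
    apply hE.subset
    rintro _ ⟨c, hc, rfl⟩
    exact hcon c hc
  set P' := P.comap g with hP'
  have hP'X : P' ∈ X.primeDivisors := hS.stab G hG g hg P hP
  simp only [Set.mem_union, Set.mem_iUnion, Set.mem_ofPred_eq, not_or, not_exists, not_and,
    not_not] at hc
  have hgood : Good x y P' := good_of_generic hP'X ((hS.laur_le_comap hG hg P).2 hPS)
    (fun j => hc.2 j hP'X) fun j => ⟨a j, b j, hb' j, hc.1 j hP'X, hab j⟩
  have h1 := hgood.comap hS hG (G.inv_mem hg)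
  rwa [hP', comap_inv_comap] at h1

/-- Non-invariant prime divisors are given by prime polynomials. -/
theorem exists_polyVal' (hS : Sys X x y 𝒢) (h : IsTorus k (coord x y)) {P : DVal k L}
    (hP : P ∈ X.primeDivisors) (hni : ¬ Inv 𝒢 P) :
    ∃ (p : MvPolynomial (Fin (r + s)) k) (hp : Prime p),
      P = polyVal k h p hp ∧ ∀ j : Fin s, ¬ p ∣ MvPolynomial.X (Fin.natAdd r j) := by
  have h1 : laur k x y ≤ P.ring := by
    by_contra hcon
    exact hni ((hS.inv_iff h hP).2 hcon)
  exact (hS.good h hP h1).exists_polyVal h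

end Pool.Agent.Helper92.KS
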