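import Pool.Agent.Helper92.KS.Prime

set_option autoImplicit false

/-!
# Project KS, geometry: prime polynomials other than the `y_j` give prime divisors
-/

namespace Pool.Agent.Helper92.KS

open Pool.Agent.Helper92.Weak MvPolynomial
open Pool.Agent.Helper92.KN (coord lev lev_apply lev_single ne_zero_x ne_zero_y exists_lev_mul
  exists_lev_eq term_mem lev_injective val_mono val_term act aeval_x_ne coord_left coord_right
  aeval_inX)

variable {k L : Type*} [Field k] [Field L] [Algebra k L] {r s : ℕ} {x : Fin r → L} {y : Fin s → L}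
  {X : ProjVar k L} {𝒢 : Set (Subgroup (L ≃ₐ[k] L))}

/-- Good valuations are prime divisors. -/
theorem Sys.good_mem (hS : Sys X x y 𝒢) (h : IsTorus k (coord x y)) {P : DVal k L}
    (hP : Good x y P) : P ∈ X.primeDivisors := by
  classical
  obtain ⟨G, hG, hinf⟩ := hS.exists_infinite hP.1
  -- denominators
  have hden : ∀ z : L, ∃ b : L, b ≠ 0 ∧ b ∈ chart k X.x 0 ∧ z * b ∈ chart k X.x 0 := by
    intro z
    obtain ⟨a, ha, b, hb, hb0, rfl⟩ := X.chart_isFrac 0 z
    refine ⟨b, hb0, hb, ?_⟩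
    rw [div_mul_cancel₀ _ hb0]
    exact ha
  choose d hd0 hd hzd using hden
  have hy : ∀ j, X.x j / X.x 0 ≠ 0 := fun j => div_ne_zero (X.x_ne j) (X.x_ne 0)
  have hE : ((⋃ i, {v : DVal k L |
        (∃ (p : MvPolynomial (Fin (r + s)) k) (hp : Prime p), v = polyVal k h p hp) ∧
          v (d (coord x y i)) ≠ 0}) ∪
      ⋃ j, {v : DVal k L |
        (∃ (p : MvPolynomial (Fin (r + s)) k) (hp : Prime p), v = polyVal k h p hp) ∧
          v (X.x j / X.x 0) ≠ 0}).Finite :=
    (Set.finite_iUnion fun i => finite_polyVal h (hd0 _)).union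
      (Set.finite_iUnion fun j => finite_polyVal h (hy j))
  obtain ⟨g, hg, hc⟩ : ∃ g ∈ G, P.comap g ∉
      ((⋃ i, {v : DVal k L |
        (∃ (p : MvPolynomial (Fin (r + s)) k) (hp : Prime p), v = polyVal k h p hp) ∧
          v (d (coord x y i)) ≠ 0}) ∪
      ⋃ j, {v : DVal k L |
        (∃ (p : MvPolynomial (Fin (r + s)) k) (hp : Prime p), v = polyVal k h p hp) ∧
          v (X.x j / X.x 0) ≠ 0}) := by
    by_contra hcon
    push Not at hcon
    apply hinf
    apply hE.subset
    rintro _ ⟨c, hc, rfl⟩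
    exact hcon c hc
  obtain ⟨p', hp', hPp', -⟩ := (hP.comap hS hG hg).exists_polyVal h
  have hc' : P.comap g ∉ _ := hc
  rw [hPp'] at hc'
  set P' := polyVal k h p' hp' with hP'
  simp only [Set.mem_union, Set.mem_iUnion, Set.mem_ofPred_eq, not_or, not_exists, not_and,
    not_not] at hc'
  obtain ⟨hc2, hc3⟩ := hc'
  have hex : ∃ (p : MvPolynomial (Fin (r + s)) k) (hp : Prime p), P' = polyVal k h p hp :=
    ⟨p', hp', rfl⟩
  have hchart : chart k X.x 0 ≤ P'.ring := by
    rw [ProjVar.chart_le_iff]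
    intro j
    rw [DVal.mem_ring, hc3 j hex]
  set R := locAt _ (posIdeal P' _ hchart) with hR
  have hdom : Dominates R P'.ring := dominates_posIdeal hchart
  have hmem : ∀ z : L, P' (d z) = 0 → z ∈ R := by
    intro z hz
    have h1 : z = (z * d z) * (d z)⁻¹ := by
      have := hd0 z
      field_simp
    rw [h1]
    exact R.mul_mem (le_locAt _ (hzd z)) (hdom.inv_mem (le_locAt _ (hd z)) hz)
  have hRt : ∀ i, coord x y i ∈ R := fun i => hmem _ (hc2 i hex)
  have hRK : ∀ a : k, algebraMap k L a ∈ R := fun a => R.algebraMap_mem a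
  have hRp : P'.ring ≤ R := by
    intro z hz
    rw [mem_polyVal_ring] at hz
    obtain ⟨a, b, hb, rfl⟩ := hz
    rw [div_eq_mul_inv]
    exact R.mul_mem (aeval_mem hRK hRt a)
      (hdom.inv_mem (aeval_mem hRK hRt b) (polyVal_eq_zero k h hp' hb))
  have hP'X : P' ∈ X.primeDivisors := by
    change P'.ring ∈ X.localRings
    rw [le_antisymm hRp hdom.1]
    exact X.locAt_mem 0 _
  have hPeq : P = P'.comap g⁻¹ := by
    rw [← hPp', comap_inv_comap]
  rw [hPeq]
  exact hS.stab G hG _ (G.inv_mem hg) _ hP'X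

theorem polyVal_mem' (hS : Sys X x y 𝒢) (h : IsTorus k (coord x y))
    {p : MvPolynomial (Fin (r + s)) k} (hp : Prime p)
    (hi : ∀ j : Fin s, ¬ p ∣ MvPolynomial.X (Fin.natAdd r j)) :
    polyVal k h p hp ∈ X.primeDivisors := hS.good_mem h (good_polyVal h hp hi)

theorem polyVal_not_inv' (hS : Sys X x y 𝒢) (h : IsTorus k (coord x y))
    {p : MvPolynomial (Fin (r + s)) k} (hp : Prime p)
    (hi : ∀ j : Fin s, ¬ p ∣ MvPolynomial.X (Fin.natAdd r j)) : ¬ Inv 𝒢 (polyVal k h p hp) :=
  hS.ns _ (good_polyVal h hp hi).1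

end Pool.Agent.Helper92.KS
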