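import Pool.Agent.Helper92.KS.Deg
import Pool.Agent.Helper92.KN.Geom
import Pool.Agent.Helper92.Ga.Comp
import Pool.Agent.Helper87.KS.SData

set_option autoImplicit false

/-!
# Project KS, geometry: sections of divisors supported on the boundary
-/

namespace Pool.Agent.Helper92.KS

open Pool.Agent.Helper92.Weak MvPolynomial
open Pool.Agent.Helper92.KN (coord lev lev_apply lev_single ne_zero_x ne_zero_y exists_lev_mul
  exists_lev_eq term_mem lev_injective val_mono val_term act aeval_x_ne coord_left coord_right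
  aeval_inX exists_mono_of_factors h0_le_sdim H0_mono)
open Pool.Agent.Helper87.KS (RVal SData ip)

variable {k L : Type*} [Field k] [Field L] [Algebra k L] {r s : ℕ} {x : Fin r → L} {y : Fin s → L}

/-- Invariance under the torus. -/
def TInv (h : IsTorus k (coord x y)) (P : DVal k L) : Prop :=
  ∀ b : Fin s → kˣ, P.comap (act h 0 b) = P

/-- The values of a torus invariant valuation on Laurent polynomials. -/
theorem TInv.ge_lev [CharZero k] {h : IsTorus k (coord x y)} {P : DVal k L} (hP : TInv h P)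
    (n : ℚ) (f : (Fin s → ℤ) →₀ MvPolynomial (Fin r) k) :
    P.Ge n (lev x y f) ↔ ∀ u, f u ≠ 0 → n ≤ P (aeval x (f u)) + ipair (fun j => P (y j)) u := by
  constructor
  · intro hf u hu
    have h1 := term_mem h (P.filt n) (by
      intro b z hz
      rw [DVal.mem_filt] at hz ⊢
      rcases hz with hz | hz
      · left; rw [hz, map_zero]
      · right
        have h2 : P (act h 0 b z) = P z := by
          conv_rhs => rw [← hP b]
          rfl
        rwa [h2]) f hf u
    rw [DVal.mem_filt, DVal.ge_iff (mul_ne_zero (aeval_x_ne h hu) (mono_ne_zero (ne_zero_y h) u)),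
      val_term h P hu] at h1
    exact_mod_cast h1
  · intro hf
    rw [lev_apply]
    apply DVal.Ge.sum
    intro u hu
    have hu' : f u ≠ 0 := Finsupp.mem_support_iff.1 hu
    right
    rw [val_term h P hu']
    exact_mod_cast hf u hu'

/-- The valuation on `k[x]`. -/
noncomputable def rval (h : IsTorus k (coord x y)) (P : DVal k L) : RVal k (MvPolynomial (Fin r) k) where
  toFun f := P (aeval x f)
  map_zero' := by simp
  map_mul' f g hf hg := by
    rw [map_mul, P.map_mul (aeval_x_ne h hf) (aeval_x_ne h hg)]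
  map_add' f g hf hg hfg := by
    rw [map_add]
    apply P.map_add' _ _ (aeval_x_ne h hf) (aeval_x_ne h hg)
    rw [← map_add]
    exact aeval_x_ne h hfg
  map_const' c := by
    rw [AlgHom.commutes, P.map_const]

lemma rval_apply (h : IsTorus k (coord x y)) (P : DVal k L) (f : MvPolynomial (Fin r) k) :
    rval h P f = P (aeval x f) := rfl

lemma rval_ge (h : IsTorus k (coord x y)) (P : DVal k L) (n : ℤ) (f : MvPolynomial (Fin r) k) :
    (rval h P).Ge n f ↔ P.Ge (n : ℚ) (aeval x f) := by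
  by_cases hf : f = 0
  · rw [hf, map_zero]
    exact ⟨fun _ => Or.inl rfl, fun _ => Or.inl rfl⟩
  rw [Pool.Agent.Helper87.KS.RVal.ge_iff hf, DVal.ge_iff (aeval_x_ne h hf), rval_apply]
  exact_mod_cast Iff.rfl

/-- The value of a term. -/
lemma rval_ge_term (h : IsTorus k (coord x y)) (P : DVal k L) (n : ℤ) (u : Fin s → ℤ)
    (f : MvPolynomial (Fin r) k) : (rval h P).Ge (n - ip (fun j => P (y j)) u) f ↔
      P.Ge (n : ℚ) (aeval x f * mono y u) := by
  by_cases hf : f = 0
  · rw [hf, map_zero, zero_mul]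
    exact ⟨fun _ => Or.inl rfl, fun _ => Or.inl rfl⟩
  rw [Pool.Agent.Helper87.KS.RVal.ge_iff hf,
    DVal.ge_iff (mul_ne_zero (aeval_x_ne h hf) (mono_ne_zero (ne_zero_y h) u)), val_term h P hf,
    rval_apply]
  have h1 : ip (fun j => P (y j)) u = ipair (fun j => P (y j)) u := rfl
  rw [h1]
  constructor
  · intro h2
    have h3 : n ≤ P (aeval x f) + ipair (fun j => P (y j)) u := by linarith
    exact_mod_cast h3
  · intro h2
    have h3 : n ≤ P (aeval x f) + ipair (fun j => P (y j)) u := by exact_mod_cast h2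
    linarith

variable {X : ProjVar k L} {𝒢 : Set (Subgroup (L ≃ₐ[k] L))}

/-- Functions without poles outside the boundary are Laurent polynomials. -/
theorem exists_lev_of_nonneg (hS : Sys X x y 𝒢) (h : IsTorus k (coord x y)) {z : L}
    (hz : ∀ P ∈ X.primeDivisors, ¬ Inv 𝒢 P → 0 ≤ P z) :
    ∃ f : (Fin s → ℤ) →₀ MvPolynomial (Fin r) k, lev x y f = z := by
  obtain ⟨a, b, hb, hab, rfl⟩ := exists_reduced h z
  have hb' : aeval (coord x y) b ≠ 0 := fun h0 => hb (h.indep (by rw [h0, map_zero]))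
  by_cases ha : a = 0
  · refine ⟨0, ?_⟩
    rw [ha]; simp
  have ha' : aeval (coord x y) a ≠ 0 := fun h0 => ha (h.indep (by rw [h0, map_zero]))
  obtain ⟨c, u, hc, hcu⟩ := exists_mono_of_factors h b hb (by
    intro p hp hpb
    by_contra hcon
    push Not at hcon
    have h1 := hz _ (polyVal_mem' hS h hp hcon) (polyVal_not_inv' hS h hp hcon)
    rw [DVal.map_div _ ha' hb'] at h1
    have h2 := (polyVal_pos_iff k h hp hb).2 hpb
    have h3 : ¬ p ∣ a := fun h0 => hp.not_isUnit (hab h0 hpb)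
    rw [polyVal_eq_zero k h hp h3] at h1
    omega)
  obtain ⟨f, hf⟩ := exists_lev_eq h a
  obtain ⟨g, hg⟩ := exists_lev_mul h f (C c⁻¹) (-u)
  refine ⟨g, ?_⟩
  rw [hg, hf, hcu, mono_neg, Algebra.smul_def, aeval_C, map_inv₀, div_eq_mul_inv, mul_inv]

/-- Laurent polynomials have no poles outside the boundary. -/
theorem lev_nonneg (hS : Sys X x y 𝒢) (h : IsTorus k (coord x y)) {P : DVal k L}
    (hP : P ∈ X.primeDivisors) (hni : ¬ Inv 𝒢 P)
    (f : (Fin s → ℤ) →₀ MvPolynomial (Fin r) k) : P.Ge 0 (lev x y f) := by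
  have h1 : laur k x y ≤ P.ring := by
    by_contra hcon
    exact hni ((hS.inv_iff h hP).2 hcon)
  exact (DVal.mem_ring_iff_ge P).1 (h1 (lev_mem_laur f))

/-- The boundary divisors. -/
abbrev Bd (X : ProjVar k L) (𝒢 : Set (Subgroup (L ≃ₐ[k] L))) : Type _ :=
  {P : X.primeDivisors // Inv 𝒢 P.1}

/-- The data belong to the boundary. -/
structure IsData (h : IsTorus k (coord x y)) (B : SData k r s (Bd X 𝒢)) : Prop where
  hv : ∀ P, B.v P = rval h P.1.1
  hw : ∀ P, B.w P = fun j => P.1.1 (y j)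

variable [CharZero k]

/-- Sections. -/
theorem lev_mem_iff (hS : Sys X x y 𝒢) (h : IsTorus k (coord x y))
    (hT : ∀ P, Inv 𝒢 P → TInv h P) {B : SData k r s (Bd X 𝒢)} (hB : IsData h B) {D : X.Div}
    (hD : ∀ P, ¬ Inv 𝒢 P.1 → D P = 0) {G : Bd X 𝒢 → ℤ} (hG : ∀ P, D P.1 = G P)
    (f : (Fin s → ℤ) →₀ MvPolynomial (Fin r) k) : lev x y f ∈ X.H0 D ↔ f ∈ B.sec G := by
  unfold ProjVar.H0
  rw [mem_sec, SData.mem_sec]
  constructor
  · intro hf u P
    rw [hB.hv, hB.hw, rval_ge_term]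
    have h1 := hf P.1
    rw [(hT _ P.2).ge_lev] at h1
    by_cases hu : f u = 0
    · left
      rw [hu, map_zero, zero_mul]
    · right
      have h2 := h1 u hu
      rw [hG P] at h2
      rw [val_term h P.1.1 hu]
      push_cast
      exact h2
  · intro hf P
    by_cases hP : Inv 𝒢 P.1
    · rw [(hT _ hP).ge_lev]
      intro u hu
      have h1 := hf u ⟨P, hP⟩
      rw [hB.hv, hB.hw, rval_ge_term, DVal.ge_iff (mul_ne_zero (aeval_x_ne h hu)
        (mono_ne_zero (ne_zero_y h) u)), val_term h P.1 hu] at h1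
      rw [hG ⟨P, hP⟩]
      push_cast at h1
      exact h1
    · rw [hD P hP, neg_zero]
      exact lev_nonneg hS h P.2 hP f

theorem sdim_H0 (hS : Sys X x y 𝒢) (h : IsTorus k (coord x y))
    (hT : ∀ P, Inv 𝒢 P → TInv h P) {B : SData k r s (Bd X 𝒢)} (hB : IsData h B) {D : X.Div}
    (hD : ∀ P, ¬ Inv 𝒢 P.1 → D P = 0) {G : Bd X 𝒢 → ℤ} (hG : ∀ P, D P.1 = G P) :
    sdim (X.H0 D) = sdim (B.sec G) := by
  have h1 : X.H0 D = (B.sec G).map (lev x y) := by
    ext z
    rw [Submodule.mem_map]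
    constructor
    · intro hz
      obtain ⟨f, rfl⟩ := exists_lev_of_nonneg hS h (z := z) (by
        intro P hP hni
        unfold ProjVar.H0 at hz
        rw [mem_sec] at hz
        have h2 := hz ⟨P, hP⟩
        rw [hD _ hni, neg_zero, ← DVal.mem_ring_iff_ge] at h2
        exact h2)
      exact ⟨f, (lev_mem_iff hS h hT hB hD hG f).1 hz, rfl⟩
    · rintro ⟨f, hf, rfl⟩
      exact (lev_mem_iff hS h hT hB hD hG f).2 hf
  rw [h1]
  exact (sdim_eq_of_equiv
    (Submodule.equivMapOfInjective (lev x y) (lev_injective h) _)).symm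

omit [CharZero k] in
/-- A function with prescribed divisor on the group. -/
theorem exists_prime_fun (hS : Sys X x y 𝒢) (h : IsTorus k (coord x y)) (Q : X.primeDivisors)
    (hQ : ¬ Inv 𝒢 Q.1) :
    ∃ φ : L, φ ≠ 0 ∧ Q.1 φ = 1 ∧ ∀ P : X.primeDivisors, ¬ Inv 𝒢 P.1 → P ≠ Q → P.1 φ = 0 := by
  obtain ⟨q, hq, hQq, -⟩ := exists_polyVal' hS h Q.2 hQ
  refine ⟨aeval (coord x y) q, fun h0 => hq.ne_zero (h.indep (by rw [h0, map_zero])), ?_, ?_⟩
  · rw [hQq]
    exact polyVal_self k h hq
  · intro P hP hPQ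
    obtain ⟨p, hp, hPp, -⟩ := exists_polyVal' hS h P.2 hP
    rw [hPp]
    apply polyVal_eq_zero k h hp
    intro hpq
    apply hPQ
    apply Subtype.ext
    rw [hPp, hQq]
    exact (polyVal_eq_of_associated h hq hp hpq).symm

omit [CharZero k] in
/-- Every integral divisor is linearly equivalent to one supported on the boundary. -/
theorem exists_add_prin (hS : Sys X x y 𝒢) (h : IsTorus k (coord x y)) (E : X.Div)
    (hE : X.IsInt E) : ∃ ψ : L, ψ ≠ 0 ∧ ∀ P, ¬ Inv 𝒢 P.1 → (E + X.prin ψ) P = 0 := by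
  classical
  have hφ : ∀ Q : X.primeDivisors, ∃ φ : L, φ ≠ 0 ∧ (¬ Inv 𝒢 Q.1 → Q.1 φ = 1) ∧
      (¬ Inv 𝒢 Q.1 → ∀ P : X.primeDivisors, ¬ Inv 𝒢 P.1 → P ≠ Q → P.1 φ = 0) := by
    intro Q
    by_cases hQ : Inv 𝒢 Q.1
    · exact ⟨1, one_ne_zero, fun h0 => absurd hQ h0, fun h0 => absurd hQ h0⟩
    · obtain ⟨φ, h1, h2, h3⟩ := exists_prime_fun hS h Q hQ
      exact ⟨φ, h1, fun _ => h2, fun _ => h3⟩
  choose φ hφ0 hφ1 hφ2 using hφ
  choose n hn using hE
  set S := E.support.filter fun Q => ¬ Inv 𝒢 Q.1 with hSdef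
  refine ⟨∏ Q ∈ S, φ Q ^ (-(n Q)), Finset.prod_ne_zero_iff.2 fun Q _ =>
    zpow_ne_zero _ (hφ0 Q), ?_⟩
  intro P hP
  rw [Finsupp.add_apply, ProjVar.prin_apply, DVal.map_prod _ _ _ fun Q _ =>
    zpow_ne_zero _ (hφ0 Q)]
  have h1 : ∑ Q ∈ S, P.1 (φ Q ^ (-(n Q))) = -(n P) := by
    by_cases hPS : P ∈ S
    · rw [Finset.sum_eq_single P]
      · rw [DVal.map_zpow, hφ1 P hP, mul_one]
      · intro Q hQ hQP
        rw [hSdef, Finset.mem_filter] at hQ
        rw [DVal.map_zpow, hφ2 Q hQ.2 P hP hQP.symm, mul_zero]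
      · intro h0
        exact absurd hPS h0
    · have h2 : E P = 0 := by
        by_contra h3
        apply hPS
        rw [hSdef, Finset.mem_filter, Finsupp.mem_support_iff]
        exact ⟨h3, hP⟩
      have h3 : n P = 0 := by
        have := hn P
        rw [h2] at this
        exact_mod_cast this.symm
      rw [h3, neg_zero]
      apply Finset.sum_eq_zero
      intro Q hQ
      have hQP : P ≠ Q := by
        rintro rfl
        exact hPS hQ
      rw [hSdef, Finset.mem_filter] at hQ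
      rw [DVal.map_zpow, hφ2 Q hQ.2 P hP hQP, mul_zero]
  rw [h1, hn P]
  push_cast
  ring

/-- `h⁰` of an integral divisor supported on the boundary. -/
lemma h0_bd (hS : Sys X x y 𝒢) (h : IsTorus k (coord x y))
    (hT : ∀ P, Inv 𝒢 P → TInv h P) {B : SData k r s (Bd X 𝒢)} (hB : IsData h B) {D : X.Div}
    (hint : X.IsInt D) (hD : ∀ P, ¬ Inv 𝒢 P.1 → D P = 0) {G : Bd X 𝒢 → ℤ}
    (hG : ∀ P, D P.1 = G P) : X.h0 D = sdim (B.sec G) := by
  rw [X.h0_of_int hint, sdim_H0 hS h hT hB hD hG]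

/-- The section spaces of all divisors are described by the data of the boundary. -/
theorem geom_of [IsAlgClosed k] (hS : Sys X x y 𝒢) (h : IsTorus k (coord x y))
    (hT : ∀ P, Inv 𝒢 P → TInv h P) {B : SData k r s (Bd X 𝒢)} (hB : IsData h B) (D : X.Div) :
    ∃ (N : ℕ) (M : Bd X 𝒢 → ℤ), 1 ≤ N ∧
      (∀ n : ℕ, X.h0 (((N * n : ℕ) : ℚ) • D) = sdim (B.sec (n • M))) ∧
      ∀ A : X.Div, ∃ A' : Bd X 𝒢 → ℤ, ∀ m : ℕ,
        X.h0 ((m : ℚ) • D + A) ≤ sdim (B.sec ((m / N) • M + A')) := by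
  classical
  obtain ⟨N, hN, hND⟩ := Pool.Agent.Helper92.Ga.IsInt.smul_of_dvd D
  obtain ⟨ψ, hψ, hψ2⟩ := exists_add_prin hS h _ hND
  set E : X.Div := (N : ℚ) • D + X.prin ψ with hE
  have hEint : X.IsInt E := hND.add (X.isInt_prin ψ)
  choose M hM using fun P : Bd X 𝒢 => hEint P.1
  refine ⟨N, M, hN, fun n => ?_, fun A => ?_⟩
  · have h1 : (n : ℚ) • E = ((N * n : ℕ) : ℚ) • D + X.prin (ψ ^ n) := by
      rw [hE, smul_add, ProjVar.prin_pow, smul_smul]
      congr 2
      push_cast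
      ring
    rw [← ProjVar.h0_add_prin _ (pow_ne_zero n hψ), ← h1]
    apply h0_bd hS h hT hB (hEint.nsmul n)
    · intro P hP
      rw [Finsupp.smul_apply, hψ2 P hP, smul_zero]
    · intro P
      rw [Finsupp.smul_apply, hM P, Pi.smul_apply, smul_eq_mul, nsmul_eq_mul]
      push_cast
      rfl
  · -- an integral divisor bounding the remainders
    set A₁ : X.Div := Finsupp.onFinset (D.support ∪ A.support)
      (fun P => if D P = 0 ∧ A P = 0 then 0 else ((⌈N * |D P| + |A P|⌉ : ℤ) : ℚ)) (by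
        intro P hP
        rw [Finset.mem_union, Finsupp.mem_support_iff, Finsupp.mem_support_iff]
        by_contra hcon
        push Not at hcon
        rw [if_pos hcon] at hP
        exact hP rfl) with hA₁
    have hA₁' : ∀ P, A₁ P = if D P = 0 ∧ A P = 0 then 0 else ((⌈N * |D P| + |A P|⌉ : ℤ) : ℚ) :=
      fun P => rfl
    have hA₁int : X.IsInt A₁ := by
      intro P
      rw [hA₁']
      split_ifs
      · exact ⟨0, by simp⟩
      · exact ⟨_, rfl⟩
    have hA₁le : ∀ (ρ : ℕ), ρ ≤ N → ∀ P, (ρ : ℚ) * D P + A P ≤ A₁ P := by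
      intro ρ hρ P
      rw [hA₁']
      split_ifs with h0
      · rw [h0.1, h0.2]; simp
      · have h1 : (ρ : ℚ) * D P ≤ N * |D P| := by
          have h2 : (ρ : ℚ) * D P ≤ ρ * |D P| :=
            mul_le_mul_of_nonneg_left (le_abs_self _) (by positivity)
          have h3 : (ρ : ℚ) * |D P| ≤ N * |D P| :=
            mul_le_mul_of_nonneg_right (by exact_mod_cast hρ) (abs_nonneg _)
          linarith
        have h2 := le_abs_self (A P)
        have h3 := Int.le_ceil (N * |D P| + |A P|)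
        linarith
    obtain ⟨ψ₁, hψ₁, hψ₁2⟩ := exists_add_prin hS h _ hA₁int
    set A₂ : X.Div := A₁ + X.prin ψ₁ with hA₂
    have hA₂int : X.IsInt A₂ := hA₁int.add (X.isInt_prin ψ₁)
    choose A' hA' using fun P : Bd X 𝒢 => hA₂int P.1
    refine ⟨A', fun m => ?_⟩
    set q := m / N with hq
    set ρ := m % N with hρ
    have hm : m = N * q + ρ := (Nat.div_add_mod m N).symm
    have hρN : ρ < N := Nat.mod_lt _ hN
    have e1 : (q : ℚ) • E + A₂ = (((N * q : ℕ) : ℚ) • D + A₁) + X.prin (ψ ^ q * ψ₁) := by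
      rw [hE, hA₂, smul_add, ProjVar.prin_mul _ (pow_ne_zero q hψ) hψ₁, ProjVar.prin_pow, smul_smul]
      have h2 : (q : ℚ) * (N : ℚ) = ((N * q : ℕ) : ℚ) := by push_cast; ring
      rw [h2]
      abel
    calc X.h0 ((m : ℚ) • D + A) ≤ sdim (X.H0 ((m : ℚ) • D + A)) := h0_le_sdim _
      _ ≤ sdim (X.H0 (((N * q : ℕ) : ℚ) • D + A₁)) := by
          apply sdim_mono
          apply H0_mono
          intro P
          rw [Finsupp.add_apply, Finsupp.add_apply, Finsupp.smul_apply, Finsupp.smul_apply,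
            smul_eq_mul, smul_eq_mul]
          have h2 := hA₁le ρ hρN.le P
          have h3 : (m : ℚ) = ((N * q : ℕ) : ℚ) + ρ := by exact_mod_cast hm
          rw [h3]
          linarith
      _ = X.h0 (((N * q : ℕ) : ℚ) • D + A₁) := by
          rw [X.h0_of_int]
          apply ProjVar.IsInt.add _ hA₁int
          have h4 : ((N * q : ℕ) : ℚ) • D = (q : ℚ) • ((N : ℚ) • D) := by
            rw [smul_smul]
            congr 1
            push_cast
            ring
          rw [h4]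
          exact hND.nsmul q
      _ = X.h0 ((q : ℚ) • E + A₂) := by
          rw [e1, ProjVar.h0_add_prin _ (mul_ne_zero (pow_ne_zero q hψ) hψ₁)]
      _ = sdim (B.sec (q • M + A')) := by
          apply h0_bd hS h hT hB ((hEint.nsmul q).add hA₂int)
          · intro P hP
            rw [Finsupp.add_apply, Finsupp.smul_apply, hψ2 P hP, hψ₁2 P hP, smul_zero, add_zero]
          · intro P
            rw [Finsupp.add_apply, Finsupp.smul_apply, hM P, hA' P, Pi.add_apply, Pi.smul_apply,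
              smul_eq_mul, nsmul_eq_mul]
            push_cast
            rfl

end Pool.Agent.Helper92.KS
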