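import Pool.Agent.Helper92.KS.SolDefs
import Pool.Agent.Helper92.KS.Sect
import Pool.Agent.Helper92.KS.Malcev

set_option autoImplicit false

/-!
# Project KS, geometry: the system of groups of a solvable compactification
-/

namespace Pool.Agent.Helper92.KS

open Pool.Agent.Helper92.Weak MvPolynomial
open Pool.Agent.Helper92.KN (coord lev lev_apply lev_single ne_zero_x ne_zero_y exists_lev_mul
  exists_lev_eq term_mem lev_injective val_mono val_term act act_x act_y act_act aeval_x_ne
  coord_left coord_right aeval_inX coord_comp algEquiv_ext_field)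
open Pool.Agent.Helper87.KS (RVal SData ip)

variable {k L : Type*} [Field k] [Field L] [Algebra k L] {r s : ℕ} {x : Fin r → L} {y : Fin s → L}
  {X : ProjVar k L}
  {𝒟 : Set ((Fin s → ℤ) × Derivation k (MvPolynomial (Fin r) k) (MvPolynomial (Fin r) k))}

lemma isTorus_of (h : IsSolvableCompactification x y 𝒟 X) : IsTorus k (coord x y) := by
  constructor
  · have h1 := h.indep
    rw [← coord_comp] at h1
    exact (algebraicIndependent_equiv finSumFinEquiv).1 h1
  · have h1 := h.gen
    rw [← coord_comp, EquivLike.range_comp] at h1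
    exact h1

lemma comap_mem_of_acts {σ : L ≃ₐ[k] L} (hσ : Acts X σ) {P : DVal k L}
    (hP : P ∈ X.primeDivisors) : P.comap σ ∈ X.primeDivisors := by
  obtain ⟨R', hR', h1⟩ := hσ P.ring hP
  change (P.comap σ).ring ∈ X.localRings
  have h2 : (P.comap σ).ring = R' := by
    ext z
    rw [h1]
    exact Iff.rfl
  rw [h2]
  exact hR'

/-- The torus. -/
noncomputable def torusHom (ht : IsTorus k (coord x y)) : (Fin s → kˣ) →* (L ≃ₐ[k] L) where
  toFun b := act ht 0 b
  map_one' := by
    ext z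
    exact Pool.Agent.Helper92.KN.act_zero ht z
  map_mul' b b' := by
    ext z
    change act ht 0 (b * b') z = act ht 0 b (act ht 0 b' z)
    rw [act_act, add_zero]

lemma torusHom_apply (ht : IsTorus k (coord x y)) (b : Fin s → kˣ) :
    torusHom ht b = act ht 0 b := rfl

section exp

variable [CharZero k]

/-- `σ` is the exponential of `c y^β δ`. -/
def IsExp (x : Fin r → L) (y : Fin s → L) (β : Fin s → ℤ)
    (δ : Derivation k (MvPolynomial (Fin r) k) (MvPolynomial (Fin r) k)) (hδ : LocNil δ) (c : k)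
    (σ : L ≃ₐ[k] L) : Prop :=
  (∀ j, σ (y j) = y j) ∧ ∀ f, σ (aeval x f) = expHom δ hδ (aeval x) (c • mono y β) f

variable {β : Fin s → ℤ} {δ : Derivation k (MvPolynomial (Fin r) k) (MvPolynomial (Fin r) k)}
  {hδ : LocNil δ}

omit [CharZero k] in
lemma map_mono {σ : L ≃ₐ[k] L} (hσ : ∀ j, σ (y j) = y j) (u : Fin s → ℤ) :
    σ (mono y u) = mono y u := by
  unfold mono
  rw [map_prod]
  refine Finset.prod_congr rfl fun j _ => ?_
  rw [map_zpow₀, hσ]

lemma IsExp.mul {c c' : k} {σ σ' : L ≃ₐ[k] L} (h : IsExp x y β δ hδ c σ)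
    (h' : IsExp x y β δ hδ c' σ') : IsExp x y β δ hδ (c + c') (σ * σ') := by
  refine ⟨fun j => ?_, fun f => ?_⟩
  · rw [AlgEquiv.mul_apply, h'.1, h.1]
  · rw [AlgEquiv.mul_apply, h'.2]
    have h1 := comp_expHom δ hδ (aeval x) (c' • mono y β) (σ : L →ₐ[k] L)
    have h2 := DFunLike.congr_fun h1 f
    rw [AlgHom.comp_apply] at h2
    have h3 : (σ : L →ₐ[k] L).comp (aeval x) = expHom δ hδ (aeval x) (c • mono y β) := by
      ext i
      exact h.2 (X i)
    have h4 : (σ : L →ₐ[k] L) (c' • mono y β) = c' • mono y β := by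
      rw [map_smul]
      congr 1
      exact map_mono h.1 β
    rw [h3, h4, expHom_expHom, ← add_smul] at h2
    exact h2

lemma IsExp.unique (ht : IsTorus k (coord x y)) {c : k} {σ σ' : L ≃ₐ[k] L}
    (h : IsExp x y β δ hδ c σ) (h' : IsExp x y β δ hδ c σ') : σ = σ' := by
  apply algEquiv_ext_field ht
  · intro i
    have h1 := h.2 (X i)
    have h2 := h'.2 (X i)
    rw [aeval_X] at h1 h2
    rw [h1, h2]
  · intro j
    rw [h.1, h'.1]

lemma isExp_one : IsExp x y β δ hδ 0 (1 : L ≃ₐ[k] L) := by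
  refine ⟨fun j => rfl, fun f => ?_⟩
  rw [zero_smul, expHom_zero]
  rfl

/-- The one parameter group. -/
noncomputable def expGrp (ht : IsTorus k (coord x y)) (β : Fin s → ℤ)
    (δ : Derivation k (MvPolynomial (Fin r) k) (MvPolynomial (Fin r) k)) (hδ : LocNil δ)
    (he : ∀ c : k, ∃ σ : L ≃ₐ[k] L, IsExp x y β δ hδ c σ) : Subgroup (L ≃ₐ[k] L) where
  carrier := {σ | ∃ c, IsExp x y β δ hδ c σ}
  mul_mem' := by
    rintro σ σ' ⟨c, hc⟩ ⟨c', hc'⟩
    exact ⟨c + c', hc.mul hc'⟩
  one_mem' := ⟨0, isExp_one⟩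
  inv_mem' := by
    rintro σ ⟨c, hc⟩
    obtain ⟨σ', hσ'⟩ := he (-c)
    have h1 := hc.mul hσ'
    rw [add_neg_cancel] at h1
    have h2 := h1.unique ht isExp_one
    refine ⟨-c, ?_⟩
    rwa [← eq_inv_of_mul_eq_one_right h2]

lemma IsExp.pow {c : k} {σ : L ≃ₐ[k] L} (h : IsExp x y β δ hδ c σ) (n : ℕ) :
    IsExp x y β δ hδ (n * c) (σ ^ n) := by
  induction n with
  | zero =>
    rw [pow_zero, Nat.cast_zero, zero_mul]
    exact isExp_one
  | succ n ih =>
    rw [pow_succ]
    have h1 := ih.mul h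
    have h2 : ((n + 1 : ℕ) : k) * c = n * c + c := by push_cast; ring
    rw [h2]
    exact h1

lemma expGrp_div (ht : IsTorus k (coord x y)) (he : ∀ c : k, ∃ σ : L ≃ₐ[k] L, IsExp x y β δ hδ c σ)
    {σ : L ≃ₐ[k] L} (hσ : σ ∈ expGrp ht β δ hδ he) {n : ℕ} (hn : n ≠ 0) :
    ∃ σ' ∈ expGrp ht β δ hδ he, σ' ^ n = σ := by
  obtain ⟨c, hc⟩ := hσ
  obtain ⟨σ', hσ'⟩ := he (c / n)
  refine ⟨σ', ⟨_, hσ'⟩, ?_⟩
  have h1 := hσ'.pow n
  have h2 : (n : k) * (c / n) = c := by
    have : (n : k) ≠ 0 := by exact_mod_cast hn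
    field_simp
  rw [h2] at h1
  exact h1.unique ht hc

lemma IsExp.pres {c : k} {σ : L ≃ₐ[k] L} (h : IsExp x y β δ hδ c σ) {z : L}
    (hz : z ∈ laur k x y) : σ z ∈ laur k x y := by
  have h1 : laur k x y ≤ (laur k x y).comap (σ : L →ₐ[k] L) := by
    apply laur_le
    · intro i
      rw [Subalgebra.mem_comap]
      change σ (x i) ∈ _
      have h2 := h.2 (X i)
      rw [aeval_X] at h2
      obtain ⟨N, hN⟩ := hδ (X i)
      rw [h2, expHom_apply _ _ _ _ _ N hN]
      apply Subalgebra.sum_mem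
      intro n _
      apply Subalgebra.smul_mem
      apply Subalgebra.mul_mem _ (aeval_x_mem _)
      apply Subalgebra.pow_mem
      apply Subalgebra.smul_mem
      exact mono_mem β
    · intro j
      rw [Subalgebra.mem_comap]
      change σ (y j) ∈ _
      rw [h.1]
      exact y_mem j
    · intro j
      rw [Subalgebra.mem_comap]
      change σ (y j)⁻¹ ∈ _
      rw [map_inv₀, h.1]
      exact y_inv_mem j
  exact h1 hz

/-- An invariant valuation does not decrease under `y^β δ`. -/
theorem IsExp.ge {P : DVal k L} (hP : ∀ c : k, ∃ σ : L ≃ₐ[k] L, IsExp x y β δ hδ c σ ∧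
      P.comap σ = P) {n : ℚ} {f : MvPolynomial (Fin r) k} (hf : P.Ge n (aeval x f)) :
    P.Ge n (aeval x (δ f) * mono y β) := by
  obtain ⟨N, hN⟩ := hδ f
  have hN' : δ^[N + 2] f = 0 := iterate_eq_zero_of_le (by omega) hN
  have key := mem_of_forall_sum_mem (k := k) (P.filt n) (N + 2)
    (fun m => (((m.factorial : ℕ) : k))⁻¹ • (aeval x (δ^[m] f) * mono y β ^ m)) (by
      intro c
      obtain ⟨σ, hσ, hσP⟩ := hP c
      have h1 : ∑ m ∈ Finset.range (N + 2), c ^ m • ((((m.factorial : ℕ) : k))⁻¹ •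
          (aeval x (δ^[m] f) * mono y β ^ m)) = σ (aeval x f) := by
        rw [hσ.2, expHom_apply _ _ _ _ _ (N + 2) hN']
        refine Finset.sum_congr rfl fun m _ => ?_
        rw [smul_pow, smul_comm, mul_smul_comm]
      rw [h1, DVal.mem_filt]
      rcases hf with hf | hf
      · left; rw [hf, map_zero]
      · right
        have h2 : P (σ (aeval x f)) = P (aeval x f) := by
          conv_rhs => rw [← hσP]
          rfl
        rwa [h2]) 1 (by omega)
  simpa using key

end exp

section sol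

variable [CharZero k]

lemma exists_isExp (h : IsSolvableCompactification x y 𝒟 X)
    {D : (Fin s → ℤ) × Derivation k (MvPolynomial (Fin r) k) (MvPolynomial (Fin r) k)}
    (hD : D ∈ 𝒟) (hδ : LocNil D.2) (c : k) :
    ∃ σ : L ≃ₐ[k] L, IsExp x y D.1 D.2 hδ c σ ∧ Acts X σ := by
  obtain ⟨σ, h1, h2, h3⟩ := h.unip D hD c
  refine ⟨σ, ⟨h1, ?_⟩, h3⟩
  have h4 : (σ : L →ₐ[k] L).comp (aeval x) = expHom D.2 hδ (aeval x) (c • mono y D.1) := by
    apply MvPolynomial.algHom_ext
    intro i
    obtain ⟨N, hN, hσ⟩ := h2 i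
    rw [AlgHom.comp_apply, aeval_X, expHom_apply _ _ _ _ _ N hN]
    change σ (x i) = _
    rw [hσ]
    refine Finset.sum_congr rfl fun n _ => ?_
    have h5 : ∏ j, y j ^ ((n : ℤ) * D.1 j) = mono y D.1 ^ n := by
      rw [← zpow_natCast, ← mono_smul]
      unfold mono
      exact Finset.prod_congr rfl fun j _ => by rw [Pi.smul_apply, smul_eq_mul]
    rw [h5, smul_pow, mul_smul_comm, smul_smul, div_eq_mul_inv, mul_comm]
  intro f
  exact DFunLike.congr_fun h4 f

/-- The groups: the torus and the one parameter groups. -/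
def groups (h : IsSolvableCompactification x y 𝒟 X) : Set (Subgroup (L ≃ₐ[k] L)) :=
  {G | G = (torusHom (isTorus_of h)).range ∨ ∃ (D : _) (hD : D ∈ 𝒟),
    G = expGrp (isTorus_of h) D.1 D.2 (locNil_of_tri (h.tri D hD))
      fun c => (exists_isExp h hD (locNil_of_tri (h.tri D hD)) c).imp fun _ h => h.1}

lemma tinv_of_inv (h : IsSolvableCompactification x y 𝒟 X) {P : DVal k L}
    (hP : Inv (groups h) P) : TInv (isTorus_of h) P := fun b =>
  hP _ (Or.inl rfl) (act (isTorus_of h) 0 b) ⟨b, rfl⟩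

lemma ge_of_inv (h : IsSolvableCompactification x y 𝒟 X) {P : DVal k L}
    (hP : Inv (groups h) P) {D : _} (hD : D ∈ 𝒟) {n : ℚ} {f : MvPolynomial (Fin r) k}
    (hf : P.Ge n (aeval x f)) : P.Ge n (aeval x (D.2 f) * mono y D.1) := by
  apply IsExp.ge (hδ := locNil_of_tri (h.tri D hD)) _ hf
  intro c
  obtain ⟨σ, hσ, -⟩ := exists_isExp h hD (locNil_of_tri (h.tri D hD)) c
  exact ⟨σ, hσ, hP _ (Or.inr ⟨D, hD, rfl⟩) σ ⟨c, hσ⟩⟩

/-- There are no invariant valuations which are nonnegative on `k[x, y, y⁻¹]`. -/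
theorem not_inv_of_le (h : IsSolvableCompactification x y 𝒟 X) {P : DVal k L}
    (hPS : laur k x y ≤ P.ring) : ¬ Inv (groups h) P := by
  intro hP
  have ht := isTorus_of h
  -- the ideal of the elements of `k[x]` with positive value
  let V : Submodule k (MvPolynomial (Fin r) k) := (P.filt 1).comap (aeval x).toLinearMap
  have hV : ∀ f, f ∈ V ↔ P.Ge 1 (aeval x f) := fun f => Iff.rfl
  have hVne : V ≠ ⊥ := by
    obtain ⟨z, hz⟩ := P.surj'
    change P z = 1 at hz
    obtain ⟨a, ha, b, hb, hb0, rfl⟩ := exists_laur_div ht z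
    have ha0 : a ≠ 0 := by
      rintro rfl
      rw [zero_div, P.map_zero] at hz
      exact zero_ne_one hz
    rw [P.map_div ha0 hb0] at hz
    have hPb : 0 ≤ P b := hPS hb
    obtain ⟨f, rfl⟩ := (mem_laur ht).1 ha
    have hf0 : f ≠ 0 := by
      rintro rfl
      exact ha0 (map_zero _)
    obtain ⟨u, hu⟩ := Finsupp.ne_iff.1 hf0
    have h1 := ((tinv_of_inv h hP).ge_lev 1 f).1 (Or.inr (by
      have : (1 : ℤ) ≤ P (lev x y f) := by omega
      exact_mod_cast this)) u hu
    have h2 : ipair (fun j => P (y j)) u = 0 := by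
      rw [← val_mono ht, val_mono_eq_zero ht hPS]
    rw [h2] at h1
    intro hbot
    have h3 : f u ∈ V := by
      rw [hV]
      right
      push_cast at h1
      linarith
    rw [hbot, Submodule.mem_bot] at h3
    exact hu h3
  obtain ⟨f, hf, hf0, hker⟩ := exists_common_kernel (Prod.snd '' 𝒟) (by
      rintro _ ⟨D, hD, rfl⟩
      exact h.tri D hD) V hVne (by
      rintro _ ⟨D, hD, rfl⟩ f hf
      rw [hV] at hf ⊢
      have h1 := ge_of_inv h hP hD hf
      by_cases h0 : D.2 f = 0
      · left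
        rw [h0, map_zero]
      · right
        rw [DVal.ge_iff (mul_ne_zero (aeval_x_ne ht h0) (mono_ne_zero (ne_zero_y ht) D.1)),
          P.map_mul (aeval_x_ne ht h0) (mono_ne_zero (ne_zero_y ht) D.1),
          val_mono_eq_zero ht hPS, add_zero] at h1
        exact h1)
  obtain ⟨c, rfl⟩ := h.trans f fun D hD => hker _ ⟨D, hD, rfl⟩
  have hc : c ≠ 0 := by
    rintro rfl
    exact hf0 C_0
  rw [hV, aeval_C] at hf
  rcases hf with h1 | h1
  · exact hc ((map_eq_zero_iff _ (algebraMap k L).injective).1 h1)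
  · rw [P.map_const] at h1
    norm_num at h1

theorem sys_of [IsAlgClosed k] (h : IsSolvableCompactification x y 𝒟 X) :
    Sys X x y (groups h) where
  div := by
    rintro G (rfl | ⟨D, hD, rfl⟩) g hg n hn
    · obtain ⟨b, rfl⟩ := hg
      have h1 : ∀ i, ∃ d : kˣ, d ^ n = b i := by
        intro i
        obtain ⟨z, hz⟩ := IsAlgClosed.exists_pow_nat_eq (b i : k) (Nat.pos_of_ne_zero hn)
        have hz0 : z ≠ 0 := by
          rintro rfl
          rw [zero_pow hn] at hz
          exact (b i).ne_zero hz.symm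
        refine ⟨Units.mk0 z hz0, ?_⟩
        apply Units.ext
        simp [hz]
      choose d hd using h1
      refine ⟨torusHom (isTorus_of h) d, ⟨d, rfl⟩, ?_⟩
      rw [← map_pow]
      congr 1
      exact funext hd
    · exact expGrp_div _ _ hg hn
  pres := by
    rintro G (rfl | ⟨D, hD, rfl⟩) g hg z hz
    · obtain ⟨b, rfl⟩ := hg
      have h1 : laur k x y ≤ (laur k x y).comap
          ((torusHom (isTorus_of h) b : L ≃ₐ[k] L) : L →ₐ[k] L) := by
        apply laur_le
        · intro i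
          rw [Subalgebra.mem_comap]
          change act (isTorus_of h) 0 b (x i) ∈ _
          rw [act_x, Pi.zero_apply, map_zero, add_zero]
          exact x_mem i
        · intro j
          rw [Subalgebra.mem_comap]
          change act (isTorus_of h) 0 b (y j) ∈ _
          rw [act_y]
          exact (laur k x y).mul_mem ((laur k x y).algebraMap_mem _) (y_mem j)
        · intro j
          rw [Subalgebra.mem_comap]
          change act (isTorus_of h) 0 b (y j)⁻¹ ∈ _
          rw [map_inv₀, act_y, mul_inv, ← map_inv₀]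
          exact (laur k x y).mul_mem ((laur k x y).algebraMap_mem _) (y_inv_mem j)
      exact h1 hz
    · obtain ⟨c, hc⟩ := hg
      exact hc.pres hz
  stab := by
    rintro G (rfl | ⟨D, hD, rfl⟩) g hg P hP
    · obtain ⟨b, rfl⟩ := hg
      obtain ⟨σ, h1, h2, h3⟩ := h.torus (fun j => (b j : k)) fun j => (b j).ne_zero
      have h4 : torusHom (isTorus_of h) b = σ := by
        apply algEquiv_ext_field (isTorus_of h)
        · intro i
          rw [h1, torusHom_apply, act_x, Pi.zero_apply, map_zero, add_zero]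
        · intro j
          rw [h2, torusHom_apply, act_y, Algebra.smul_def]
      rw [h4]
      exact comap_mem_of_acts h3 hP
    · obtain ⟨c, hc⟩ := hg
      obtain ⟨σ, hσ, h3⟩ := exists_isExp h hD (locNil_of_tri (h.tri D hD)) c
      rw [hc.unique (isTorus_of h) hσ]
      exact comap_mem_of_acts h3 hP
  ns := fun _ hPS => not_inv_of_le h hPS

end sol

end Pool.Agent.Helper92.KS
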