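import Pool.Agent.Helper92.Weak.Defs

set_option autoImplicit false

/-!
# Equivariant compactifications of connected solvable linear algebraic groups

Let `G = T ⋉ U` be a connected solvable linear algebraic group over an algebraically closed field `k`
of characteristic zero, with coordinates `g = t u`, `y` the coordinates of the torus `T = 𝔾_m^s`, `x`
coordinates of `U ≅ 𝔸^r` adapted to a central series. The left multiplications by elements of `T` are
`y_j ↦ b_j y_j`, and the left multiplications by `exp (c e)`, `e` a root vector in the Lie algebra of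
`U`, `c ∈ k`, are `x_i ↦ ∑ cⁿ / n! y^(n β) δⁿ(x_i)`, where `-β` is the weight of `e` and `δ` is the
derivation of `k[U] = k[x]` defined by `e`. These derivations are triangular, and their common kernel
is `k`.
-/

namespace Pool.Agent.Helper92.KS

open Pool.Agent.Helper92.Weak

/-- The automorphism `σ` of the function field of `X` is given by an automorphism of `X`. -/
def Acts {k L : Type*} [Field k] [Field L] [Algebra k L] (X : ProjVar k L) (σ : L ≃ₐ[k] L) : Prop :=
  ∀ R ∈ X.localRings, ∃ R' ∈ X.localRings, ∀ z, z ∈ R' ↔ σ z ∈ R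

/-- The function field of the normal projective variety `X` is `k(x₁, ..., x_r, y₁, ..., y_s)`; the
torus `y_j ↦ b_j y_j` and the one parameter groups `exp (c y^β δ)`, `(β, δ) ∈ 𝒟`, `c ∈ k`, act on
`X`, where `𝒟` is a set of pairs of a weight `β ∈ ℤ^s` and a triangular derivation `δ` of
`k[x₁, ..., x_r]`, with common kernel `k`. -/
structure IsSolvableCompactification {k L : Type*} [Field k] [Field L] [Algebra k L] {r s : ℕ}
    (x : Fin r → L) (y : Fin s → L)
    (𝒟 : Set ((Fin s → ℤ) × Derivation k (MvPolynomial (Fin r) k) (MvPolynomial (Fin r) k)))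
    (X : ProjVar k L) : Prop where
  indep : AlgebraicIndependent k (Sum.elim x y)
  gen : IntermediateField.adjoin k (Set.range (Sum.elim x y)) = ⊤
  tri : ∀ D ∈ 𝒟, ∀ i, D.2 (MvPolynomial.X i) ∈ MvPolynomial.supported k {j | j < i}
  trans : ∀ f, (∀ D ∈ 𝒟, D.2 f = 0) → ∃ c, f = MvPolynomial.C c
  torus : ∀ b : Fin s → k, (∀ j, b j ≠ 0) → ∃ σ : L ≃ₐ[k] L,
    (∀ i, σ (x i) = x i) ∧ (∀ j, σ (y j) = b j • y j) ∧ Acts X σ
  unip : ∀ D ∈ 𝒟, ∀ c : k, ∃ σ : L ≃ₐ[k] L, (∀ j, σ (y j) = y j) ∧
    (∀ i, ∃ N : ℕ, D.2^[N] (MvPolynomial.X i) = 0 ∧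
      σ (x i) = ∑ n ∈ Finset.range N, (c ^ n / (n.factorial : k)) •
        (MvPolynomial.aeval x (D.2^[n] (MvPolynomial.X i)) * ∏ j, y j ^ ((n : ℤ) * D.1 j))) ∧
    Acts X σ

end Pool.Agent.Helper92.KS
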