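import Pool.Agent.Helper92.KS.LND

set_option autoImplicit false

/-!
# Project KS: triangular derivations of `k[x₁, ..., x_r]`

PROOFS.
* `locNil_of_tri`: `{f | ∃ n, δ^[n] f = 0}` is a subalgebra (for products: `δ^[n] (f g)` is a sum of
  `δ^[i] f * δ^[n-i] g`, or use `exists_psi`), by strong induction on `i` it contains `X i`
  (it contains `supported k {j | j < i}`, hence `δ (X i)`, hence `X i`).
* `exists_common_kernel`: order the monomials lexicographically with the LARGEST index first: `m < m'`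
  if `m i < m' i` for the largest `i` with `m i ≠ m' i`. This is a well order (`MonomialOrder.lex` for
  the reversed order on `Fin r`, or `Pi.Lex`/`DFinsupp.Lex` well-foundedness). A triangular
  derivation strictly lowers it: every monomial of `δ (monomial m c)` is `m - e_i + n` with `m i > 0`
  and `n` supported in `{j | j < i}`, so it is `< m`. Choose `f ∈ V`, `f ≠ 0`, whose largest monomial
  is minimal; then `δ f ∈ V` has only smaller monomials, so `δ f = 0` for all `δ ∈ 𝒟`.
-/

namespace Pool.Agent.Helper92.KS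

open MvPolynomial

variable {k : Type*} [Field k] {r : ℕ}

/-- `δ (X i)` is a polynomial in the `X j`, `j < i`. -/
def Tri (δ : Derivation k (MvPolynomial (Fin r) k) (MvPolynomial (Fin r) k)) : Prop :=
  ∀ i, δ (X i) ∈ supported k {j | j < i}

private theorem iter_zero {δ : Derivation k (MvPolynomial (Fin r) k) (MvPolynomial (Fin r) k)}
    (n : ℕ) : δ^[n] 0 = 0 := iterate_map_zero δ n

private theorem iter_add {δ : Derivation k (MvPolynomial (Fin r) k) (MvPolynomial (Fin r) k)}
    (n : ℕ) (f g : MvPolynomial (Fin r) k) : δ^[n] (f + g) = δ^[n] f + δ^[n] g :=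
  iterate_map_add δ n f g

private theorem iter_mul {δ : Derivation k (MvPolynomial (Fin r) k) (MvPolynomial (Fin r) k)}
    (N : ℕ) : ∀ (a b : ℕ) (f g : MvPolynomial (Fin r) k), a + b ≤ N → δ^[a] f = 0 → δ^[b] g = 0 →
      δ^[N] (f * g) = 0 := by
  induction N with
  | zero =>
    intro a b f g hab hf hg
    have ha : a = 0 := by omega
    subst ha
    have hf' : f = 0 := hf
    simp [hf']
  | succ N ih =>
    intro a b f g hab hf hg
    rcases Nat.eq_zero_or_pos a with ha | ha
    · subst ha
      have hf' : f = 0 := hf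
      rw [hf', zero_mul]
      exact iter_zero _
    rcases Nat.eq_zero_or_pos b with hb | hb
    · subst hb
      have hg' : g = 0 := hg
      rw [hg', mul_zero]
      exact iter_zero _
    obtain ⟨a, rfl⟩ : ∃ c, a = c + 1 := ⟨a - 1, by omega⟩
    obtain ⟨b, rfl⟩ : ∃ c, b = c + 1 := ⟨b - 1, by omega⟩
    rw [Function.iterate_succ_apply, Derivation.leibniz, iter_add, smul_eq_mul, smul_eq_mul,
      ih (a + 1) b f (δ g) (by omega) hf hg, ih (b + 1) a g (δ f) (by omega) hg hf, add_zero]

/-- The subalgebra on which the derivation is locally nilpotent. -/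
private def nilSub (δ : Derivation k (MvPolynomial (Fin r) k) (MvPolynomial (Fin r) k)) :
    Subalgebra k (MvPolynomial (Fin r) k) where
  carrier := {f | ∃ n, δ^[n] f = 0}
  mul_mem' := by
    rintro f g ⟨a, ha⟩ ⟨b, hb⟩
    exact ⟨a + b, iter_mul (a + b) a b f g le_rfl ha hb⟩
  add_mem' := by
    rintro f g ⟨a, ha⟩ ⟨b, hb⟩
    refine ⟨a + b, ?_⟩
    rw [iter_add, iterate_eq_zero_of_le (Nat.le_add_right a b) ha,
      iterate_eq_zero_of_le (Nat.le_add_left b a) hb, add_zero]
  algebraMap_mem' := fun c => ⟨1, by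
    rw [Function.iterate_one]
    exact Derivation.map_algebraMap δ c⟩

theorem locNil_of_tri [CharZero k] {δ : Derivation k (MvPolynomial (Fin r) k) (MvPolynomial (Fin r) k)}
    (hδ : Tri δ) : LocNil δ := by
  have hX : ∀ n : ℕ, ∀ i : Fin r, (i : ℕ) < n → (X i : MvPolynomial (Fin r) k) ∈ nilSub δ := by
    intro n
    induction n with
    | zero => intro i hi; omega
    | succ n ih =>
      intro i hi
      have h1 : δ (X i) ∈ nilSub δ := by
        have h2 : supported k {j : Fin r | j < i} ≤ nilSub δ := by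
          rw [supported]
          refine Algebra.adjoin_le ?_
          rintro _ ⟨j, hj, rfl⟩
          refine ih j ?_
          have h3 : (j : ℕ) < (i : ℕ) := hj
          omega
        exact h2 (hδ i)
      obtain ⟨m, hm⟩ := h1
      exact ⟨m + 1, by rw [Function.iterate_succ_apply]; exact hm⟩
  intro f
  have htop : (⊤ : Subalgebra k (MvPolynomial (Fin r) k)) ≤ nilSub δ := by
    rw [← adjoin_range_X]
    refine Algebra.adjoin_le ?_
    rintro _ ⟨j, rfl⟩
    exact hX r j j.2
  exact htop (Algebra.mem_top (x := f))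


/-- The lexicographic order with the largest index first. -/
private noncomputable def lexd (r : ℕ) : MonomialOrder (Fin r) :=
  (MonomialOrder.lex : MonomialOrder (Fin r)ᵒᵈ)

private theorem lexd_lt {s t : Fin r →₀ ℕ} (i : Fin r) (h1 : ∀ j, i < j → s j = t j)
    (h2 : s i < t i) : (lexd r).toSyn s < (lexd r).toSyn t := by
  refine Finsupp.Lex.lt_iff.2 ⟨OrderDual.toDual i, ?_, h2⟩
  intro j hj
  exact h1 (OrderDual.ofDual j) hj

private theorem supp_lt (δ : Derivation k (MvPolynomial (Fin r) k) (MvPolynomial (Fin r) k))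
    (hδ : Tri δ) (t : Fin r →₀ ℕ) (c : k) {s : Fin r →₀ ℕ} (hs : s ∈ (δ (monomial t c)).support) :
    (lexd r).toSyn s < (lexd r).toSyn t := by
  classical
  have hd : δ = mkDerivation k (fun i => δ (X i)) := by
    refine derivation_ext fun i => ?_
    rw [mkDerivation_X]
  rw [hd, mkDerivation_monomial] at hs
  have hs1 := support_smul hs
  rw [Finsupp.sum] at hs1
  obtain ⟨i, hi, hs2⟩ := Finset.mem_biUnion.1 (support_sum hs1)
  rw [smul_eq_mul] at hs2
  obtain ⟨u, hu, n, hn, hun⟩ := Finset.mem_add.1 (support_mul _ _ hs2)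
  have hu' : u = t - Finsupp.single i 1 := by
    have := support_monomial_subset hu
    exact Finset.mem_singleton.1 this
  have hti : t i ≠ 0 := Finsupp.mem_support_iff.1 hi
  have hn0 : ∀ j, i ≤ j → n j = 0 := by
    intro j hij
    by_contra hne
    have hv : j ∈ (δ (X i)).vars := (mem_vars_iff_mem_support j).2 ⟨n, hn, Finsupp.mem_support_iff.2 hne⟩
    have h3 : j ∈ {j : Fin r | j < i} := (mem_supported.1 (hδ i)) hv
    exact absurd hij (not_le.2 h3)
  refine lexd_lt i ?_ ?_
  · intro j hij
    have hne : i ≠ j := hij.ne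
    rw [← hun, hu', Finsupp.add_apply, Finsupp.tsub_apply, Finsupp.single_apply, if_neg hne,
      hn0 j hij.le]
    simp
  · rw [← hun, hu', Finsupp.add_apply, Finsupp.tsub_apply, Finsupp.single_apply, if_pos rfl,
      hn0 i le_rfl]
    omega

private theorem supp_lt' (δ : Derivation k (MvPolynomial (Fin r) k) (MvPolynomial (Fin r) k))
    (hδ : Tri δ) (f : MvPolynomial (Fin r) k) {s : Fin r →₀ ℕ} (hs : s ∈ (δ f).support) :
    (lexd r).toSyn s < (lexd r).toSyn ((lexd r).degree f) := by
  classical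
  have hf : δ f = ∑ t ∈ f.support, δ (monomial t (coeff t f)) := by
    conv_lhs => rw [f.as_sum]
    rw [map_sum]
  rw [hf] at hs
  obtain ⟨t, ht, hs2⟩ := Finset.mem_biUnion.1 (support_sum hs)
  exact lt_of_lt_of_le (supp_lt δ hδ t _ hs2) ((lexd r).le_degree ht)

/-- A nonzero subspace stable under triangular derivations contains a nonzero common kernel
element. -/
theorem exists_common_kernel
    (𝒟 : Set (Derivation k (MvPolynomial (Fin r) k) (MvPolynomial (Fin r) k)))
    (htri : ∀ δ ∈ 𝒟, Tri δ) (V : Submodule k (MvPolynomial (Fin r) k)) (hV : V ≠ ⊥)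
    (hst : ∀ δ ∈ 𝒟, ∀ f ∈ V, δ f ∈ V) : ∃ f ∈ V, f ≠ 0 ∧ ∀ δ ∈ 𝒟, δ f = 0 := by
  classical
  have hne : ∃ f, f ∈ V ∧ f ≠ 0 := by
    obtain ⟨f, hf, hf0⟩ := Submodule.exists_mem_ne_zero_of_ne_bot hV
    exact ⟨f, hf, hf0⟩
  have hwf : WellFounded (fun f g : MvPolynomial (Fin r) k =>
      (lexd r).toSyn ((lexd r).degree f) < (lexd r).toSyn ((lexd r).degree g)) :=
    InvImage.wf (fun f => (lexd r).toSyn ((lexd r).degree f)) ((lexd r).wellFoundedLT_syn.wf)
  obtain ⟨f, ⟨hfV, hf0⟩, hmin⟩ := hwf.has_min {f | f ∈ V ∧ f ≠ 0} hne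
  refine ⟨f, hfV, hf0, fun δ hδ => ?_⟩
  by_contra hδf
  have h1 := hmin (δ f) ⟨hst δ hδ f hfV, hδf⟩
  exact h1 (supp_lt' δ (htri δ hδ) f ((lexd r).degree_mem_support hδf))

end Pool.Agent.Helper92.KS
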